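import Pool.Agent.Lib.MP_691331_co.Theta

set_option autoImplicit false

namespace Pool.Agent.Lib.MP_691331_co

open Finset

variable {V : Type} [DecidableEq V] (H : SimpleGraph V)

/-- A normal (depth-first) spanning forest of H on S, given by the sets of strict ancestors. -/
structure NormalForest (S : Finset V) (root : V → V) (A : V → Finset V) : Prop where
  sub : ∀ x ∈ S, ∀ y ∈ A x, y ∈ comp H S x
  irr : ∀ x ∈ S, x ∉ A x
  trans : ∀ x ∈ S, ∀ y ∈ A x, A y ⊆ A x
  chain : ∀ x ∈ S, ∀ y ∈ A x, ∀ y' ∈ A x, y = y' ∨ y ∈ A y' ∨ y' ∈ A y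
  normal : ∀ x ∈ S, ∀ x' ∈ S, H.Adj x x' → x ∈ A x' ∨ x' ∈ A x
  parent : ∀ x ∈ S, root x ≠ x → ∃ y ∈ A x, H.Adj x y ∧ ∀ y' ∈ A x, y' = y ∨ y' ∈ A y
  rootA : ∀ x ∈ S, root x = x → A x = ∅

variable {H}

omit [DecidableEq V] in
lemma comp_mono {S S' : Finset V} (h : S' ⊆ S) (x : V) : comp H S' x ⊆ comp H S x := by
  intro y hy
  obtain ⟨h1, h2⟩ := mem_comp.mp hy
  refine mem_comp.mpr ⟨h h1, ?_⟩
  clear hy h1
  induction h2 with
  | refl => exact Relation.ReflTransGen.refl
  | tail _ hb ih => exact ih.tail ⟨h hb.1, h hb.2.1, hb.2.2⟩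

theorem exists_normalForest (n : ℕ) : ∀ (S : Finset V) (root : V → V), S.card = n →
    (∀ x ∈ S, root x ∈ comp H S x) → (∀ x ∈ S, ∀ y ∈ comp H S x, root y = root x) →
    ∃ A, NormalForest H S root A := by
  induction n using Nat.strong_induction_on with
  | _ n ih =>
  intro S root hn h1 h2
  rcases S.eq_empty_or_nonempty with rfl | ⟨x0, hx0⟩
  · exact ⟨fun _ => ∅, by constructor <;> simp⟩
  set S' := S.filter (fun x => root x ≠ x) with hS'
  have hsub : S' ⊆ S := filter_subset _ _
  have hrr : ∀ x ∈ S, root (root x) = root x := fun x hx => h2 x hx _ (h1 x hx)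
  have hlt : S'.card < n := by
    rw [← hn]
    refine card_lt_card ⟨hsub, fun h => ?_⟩
    exact (mem_filter.mp (h (comp_subset S x0 (h1 x0 hx0)))).2 (hrr x0 hx0)
  have hnew : ∀ W : Finset V, ∃ r : V, ∀ x ∈ S', W = comp H S' x → r ∈ W ∧ H.Adj r (root x) := by
    intro W
    by_cases hW : ∃ x ∈ S', W = comp H S' x
    · obtain ⟨x, hx, rfl⟩ := hW
      have hex : ∃ r ∈ comp H S' x, H.Adj r (root x) := by
        by_contra hno
        push Not at hno
        have := conn_comp (G := H) S x (fun y => y ∈ comp H S' x)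
          ⟨x, self_mem_comp (hsub hx), self_mem_comp hx⟩ ?_ (root x) (h1 x (hsub hx))
        · exact (mem_filter.mp (comp_subset S' x this)).2 (hrr x (hsub hx))
        intro a ha ha' b hb hab
        refine mem_comp_of_adj ha' (mem_filter.mpr ⟨comp_subset S x hb, fun hbr => ?_⟩) hab
        have : b = root x := hbr.symm.trans (h2 x (hsub hx) b hb)
        exact hno a ha' (this ▸ hab)
      obtain ⟨r, hr1, hr2⟩ := hex
      refine ⟨r, fun y hy hxy => ⟨hr1, ?_⟩⟩
      have : y ∈ comp H S x := comp_mono hsub x (hxy ▸ self_mem_comp hy)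
      rwa [h2 x (hsub hx) y this]
    · exact ⟨x0, fun x hx h => absurd ⟨x, hx, h⟩ hW⟩
  choose nr hnr using hnew
  obtain ⟨A', hA'⟩ := ih _ hlt S' (fun x => nr (comp H S' x)) rfl
    (fun x hx => (hnr _ x hx rfl).1) (fun x _ y hy => by simp only [comp_eq hy])
  have hrootS' : ∀ x ∈ S, root x ∉ S' := fun x hx h => (mem_filter.mp h).2 (hrr x hx)
  have hA'S : ∀ x ∈ S', ∀ y ∈ A' x, y ∈ S' ∧ root y = root x := fun x hx y hy =>
    ⟨comp_subset S' x (hA'.sub x hx y hy), h2 x (hsub hx) y (comp_mono hsub x (hA'.sub x hx y hy))⟩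
  refine ⟨fun x => if x ∈ S' then insert (root x) (A' x) else ∅, ?_, ?_, ?_, ?_, ?_, ?_, ?_⟩
  · intro x hx y hy
    by_cases hx' : x ∈ S'
    · simp only [hx', if_true, mem_insert] at hy
      rcases hy with rfl | hy
      · exact h1 x hx
      · exact comp_mono hsub x (hA'.sub x hx' y hy)
    · simp [hx'] at hy
  · intro x hx hy
    by_cases hx' : x ∈ S'
    · simp only [hx', if_true, mem_insert] at hy
      rcases hy with hy | hy
      · exact (mem_filter.mp hx').2 hy.symm
      · exact hA'.irr x hx' hy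
    · simp [hx'] at hy
  · intro x hx y hy
    by_cases hx' : x ∈ S'
    · simp only [hx', if_true, mem_insert] at hy ⊢
      rcases hy with rfl | hy
      · simp [hrootS' x hx]
      · obtain ⟨h3, h4⟩ := hA'S x hx' y hy
        simp only [h3, if_true, h4]
        exact insert_subset_insert _ (hA'.trans x hx' y hy)
    · simp [hx'] at hy
  · intro x hx y hy y' hy'
    by_cases hx' : x ∈ S'
    · simp only [hx', if_true, mem_insert] at hy hy'
      rcases hy with rfl | hy <;> rcases hy' with rfl | hy'
      · exact Or.inl rfl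
      · obtain ⟨h3, h4⟩ := hA'S x hx' y' hy'
        simp [h3, h4]
      · obtain ⟨h3, h4⟩ := hA'S x hx' y hy
        simp [h3, h4]
      · obtain ⟨h3, h4⟩ := hA'S x hx' y hy
        obtain ⟨h5, h6⟩ := hA'S x hx' y' hy'
        simp only [h3, h5, if_true, mem_insert]
        rcases hA'.chain x hx' y hy y' hy' with h | h | h
        · exact Or.inl h
        · exact Or.inr (Or.inl (Or.inr h))
        · exact Or.inr (Or.inr (Or.inr h))
    · simp [hx'] at hy
  · intro x hx x' hx' hadj
    have hrx : root x' = root x := h2 x hx x' (mem_comp_of_adj (self_mem_comp hx) hx' hadj)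
    by_cases a1 : x ∈ S' <;> by_cases a2 : x' ∈ S'
    · simp only [a1, a2, if_true, mem_insert]
      rcases hA'.normal x a1 x' a2 hadj with h | h
      · exact Or.inl (Or.inr h)
      · exact Or.inr (Or.inr h)
    · have : root x' = x' := by simpa [hS', hx'] using a2
      simp only [a1, if_true, mem_insert]
      exact Or.inr (Or.inl (this.symm.trans hrx))
    · have : root x = x := by simpa [hS', hx] using a1
      simp only [a2, if_true, mem_insert]
      exact Or.inl (Or.inl (this.symm.trans hrx.symm))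
    · have e1 : root x' = x' := by simpa [hS', hx'] using a2
      have e2 : root x = x := by simpa [hS', hx] using a1
      exact absurd (e2.symm.trans (hrx.symm.trans e1)) hadj.ne
  · intro x hx hne
    have hx' : x ∈ S' := mem_filter.mpr ⟨hx, hne⟩
    simp only [hx', if_true, mem_insert]
    by_cases hr : nr (comp H S' x) = x
    · refine ⟨root x, Or.inl rfl, ?_, ?_⟩
      · have := (hnr _ x hx' rfl).2
        rwa [hr] at this
      · rintro y' (h | h)
        · exact Or.inl h
        · rw [hA'.rootA x hx' hr] at h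
          simp at h
    · obtain ⟨y, hy, hadj, hmin⟩ := hA'.parent x hx' hr
      obtain ⟨h3, h4⟩ := hA'S x hx' y hy
      refine ⟨y, Or.inr hy, hadj, ?_⟩
      simp only [h3, if_true, mem_insert, h4]
      rintro y' (h | h)
      · exact Or.inr (Or.inl h)
      · rcases hmin y' h with h | h
        · exact Or.inl h
        · exact Or.inr (Or.inr h)
  · intro x hx hr
    have : x ∉ S' := fun h => (mem_filter.mp h).2 hr
    simp [this]

namespace NormalForest

variable {S : Finset V} {root : V → V} {A : V → Finset V}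

omit [DecidableEq V] in
lemma memS (h : NormalForest H S root A) {x y : V} (hx : x ∈ S) (hy : y ∈ A x) : y ∈ S :=
  comp_subset S x (h.sub x hx y hy)

omit [DecidableEq V] in
lemma card_lt (h : NormalForest H S root A) {x y : V} (hx : x ∈ S) (hy : y ∈ A x) :
    (A y).card < (A x).card :=
  card_lt_card ⟨h.trans x hx y hy, fun hh => h.irr y (h.memS hx hy) (hh hy)⟩

omit [DecidableEq V] in
lemma asymm (h : NormalForest H S root A) {x y : V} (hx : x ∈ S) (hy : y ∈ A x) : x ∉ A y :=
  fun hh => h.irr x hx (h.trans x hx y hy hh)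

omit [DecidableEq V] in
/-- A nonempty subset of S has an element with no strict descendant in the subset. -/
lemma exists_deepest (h : NormalForest H S root A) (T : Set V) (hT : T ⊆ S) (hne : T.Nonempty) :
    ∃ y ∈ T, ∀ z ∈ T, y ∉ A z := by
  have hfin : T.Finite := S.finite_toSet.subset hT
  obtain ⟨y, hy, hmax⟩ := Set.exists_max_image T (fun x => (A x).card) hfin hne
  exact ⟨y, hy, fun z hz hyz => absurd (h.card_lt (hT hz) hyz) (not_lt.mpr (hmax z hz))⟩

end NormalForest

end Pool.Agent.Lib.MP_691331_co
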