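import Pool.Agent.Lib.MP_691331_co.Theta

set_option autoImplicit false

namespace Pool.Agent.Lib.MP_691331_co

open Finset

variable {V : Type} [DecidableEq V] {G : SimpleGraph V}

variable (G) in
/-- Optimal clique labellings. -/
def Opt (Z : Finset V) (c : V → ℕ) : Prop := Valid G Z c ∧ (Z.image c).card = theta G Z

/-- Vertices alone in their class. -/
def sing (Z : Finset V) (c : V → ℕ) : Finset V := Z.filter (fun x => ∀ y ∈ Z, c y = c x → y = x)

lemma mem_sing {Z : Finset V} {c : V → ℕ} {x : V} :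
    x ∈ sing Z c ↔ x ∈ Z ∧ ∀ y ∈ Z, c y = c x → y = x := by simp [sing]

lemma valid_move {Z : Finset V} {c : V → ℕ} (hc : Valid G Z c) {y : V} {i : ℕ}
    (hall : ∀ a ∈ Z, a ≠ y → c a = i → G.Adj y a) : Valid G Z (Function.update c y i) := by
  intro a ha b hb hab hab'
  by_cases hax : a = y
  · subst hax
    rw [Function.update_self, Function.update_of_ne hab.symm] at hab'
    exact hall b hb hab.symm hab'.symm
  by_cases hbx : b = y
  · subst hbx
    rw [Function.update_self, Function.update_of_ne hab] at hab'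
    exact (hall a ha hab hab').symm
  rw [Function.update_of_ne hax, Function.update_of_ne hbx] at hab'
  exact hc a ha b hb hab hab'

lemma image_move_subset {Z : Finset V} {c : V → ℕ} {x y : V} (hx : x ∈ Z) (hxy : x ≠ y) :
    Z.image (Function.update c y (c x)) ⊆ (Z.erase y).image c := by
  intro j hj
  obtain ⟨a, ha, rfl⟩ := mem_image.mp hj
  by_cases hay : a = y
  · subst hay
    rw [Function.update_self]
    exact mem_image_of_mem _ (mem_erase.mpr ⟨hxy, hx⟩)
  · rw [Function.update_of_ne hay]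
    exact mem_image_of_mem _ (mem_erase.mpr ⟨hay, ha⟩)

/-- A singleton that could join another class contradicts optimality. -/
lemma Opt.no_absorb {Z : Finset V} {c : V → ℕ} (hc : Opt G Z c) {x y : V} (hx : x ∈ Z)
    (hxy : x ≠ y) (hy : y ∈ sing Z c) (hall : ∀ a ∈ Z, a ≠ y → c a = c x → G.Adj y a) :
    False := by
  have h1 := (theta_le (valid_move hc.1 hall)).trans (card_le_card (image_move_subset hx hxy))
  have h2 : (Z.erase y).image c ⊆ (Z.image c).erase (c y) := by
    intro j hj
    obtain ⟨a, ha, rfl⟩ := mem_image.mp hj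
    exact mem_erase.mpr ⟨fun h => (mem_erase.mp ha).1 ((mem_sing.mp hy).2 a (mem_erase.mp ha).2 h),
      mem_image_of_mem _ (mem_erase.mp ha).2⟩
  have h3 := card_le_card h2
  have h4 := card_erase_lt_of_mem (mem_image_of_mem c (mem_sing.mp hy).1)
  have h5 := hc.2
  omega

lemma Opt.not_adj_sing {Z : Finset V} {c : V → ℕ} (hc : Opt G Z c) {x y : V}
    (hx : x ∈ sing Z c) (hy : y ∈ sing Z c) : ¬ G.Adj x y := by
  intro hadj
  refine hc.no_absorb (mem_sing.mp hx).1 hadj.ne hy fun a ha _ hac => ?_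
  rw [(mem_sing.mp hx).2 a ha hac]
  exact hadj.symm

lemma Opt.move {Z : Finset V} {c : V → ℕ} (hc : Opt G Z c) {x y : V}
    (hx : x ∈ sing Z c) (hadj : G.Adj x y) : Opt G Z (Function.update c y (c x)) := by
  have hv : Valid G Z (Function.update c y (c x)) := by
    refine valid_move hc.1 fun a ha _ hac => ?_
    rw [(mem_sing.mp hx).2 a ha hac]
    exact hadj.symm
  refine ⟨hv, le_antisymm ?_ (theta_le hv)⟩
  rw [← hc.2]
  exact card_le_card ((image_move_subset (mem_sing.mp hx).1 hadj.ne).trans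
    (image_subset_image (erase_subset _ _)))

lemma exists_opt_sing {Z : Finset V} (h : Crit G Z) {t : V} (ht : t ∈ Z) :
    ∃ c, Opt G Z c ∧ t ∈ sing Z c := by
  obtain ⟨c, hc, hk⟩ := exists_opt (G := G) (Z.erase t)
  obtain ⟨i, hi⟩ := Infinite.exists_notMem_finset ((Z.erase t).image c)
  have hne : ∀ a ∈ Z, a ≠ t → c a ≠ i := fun a ha hat h =>
    hi (mem_image.mpr ⟨a, mem_erase.mpr ⟨hat, ha⟩, h⟩)
  have hv : Valid G Z (Function.update c t i) := by
    intro a ha b hb hab hab'
    by_cases hax : a = t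
    · subst hax
      rw [Function.update_self, Function.update_of_ne hab.symm] at hab'
      exact absurd hab'.symm (hne b hb hab.symm)
    by_cases hbx : b = t
    · subst hbx
      rw [Function.update_self, Function.update_of_ne hab] at hab'
      exact absurd hab' (hne a ha hab)
    rw [Function.update_of_ne hax, Function.update_of_ne hbx] at hab'
    exact hc a (mem_erase.mpr ⟨hax, ha⟩) b (mem_erase.mpr ⟨hbx, hb⟩) hab hab'
  refine ⟨_, ⟨hv, le_antisymm ?_ (theta_le hv)⟩, mem_sing.mpr ⟨ht, fun y hy hyc => ?_⟩⟩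
  · have hsub : Z.image (Function.update c t i) ⊆ insert i ((Z.erase t).image c) := by
      intro j hj
      obtain ⟨a, ha, rfl⟩ := mem_image.mp hj
      by_cases hat : a = t
      · subst hat
        simp
      · rw [Function.update_of_ne hat]
        exact mem_insert_of_mem (mem_image_of_mem _ (mem_erase.mpr ⟨hat, ha⟩))
    have h1 := (card_le_card hsub).trans (card_insert_le _ _)
    have h2 := h t ht
    omega
  · by_contra hyt
    rw [Function.update_self, Function.update_of_ne hyt] at hyc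
    exact hne y hy hyt hyc

/-- Pairs together in M but separated in N. -/
def dis (Z : Finset V) (M N : V → ℕ) : ℕ :=
  ((Z ×ˢ Z).filter (fun p => M p.1 = M p.2 ∧ N p.1 ≠ N p.2)).card

/-- The exchange step in the proof of the theorem of Gallai. -/
lemma exchange {Z : Finset V} {M N : V → ℕ} (hM : Opt G Z M) (hN : Opt G Z N) {t x : V}
    (ht : t ∈ sing Z N) (hx : x ∈ sing Z N) (hxM : x ∉ sing Z M) (hxt : x ≠ t) :
    ∃ N', Opt G Z N' ∧ t ∈ sing Z N' ∧ ((sing Z N').card < (sing Z N).card ∨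
      ((sing Z N').card ≤ (sing Z N).card ∧ dis Z M N' < dis Z M N)) := by
  have hxZ := (mem_sing.mp hx).1
  obtain ⟨y, hy, hyM, hyx⟩ : ∃ y ∈ Z, M y = M x ∧ y ≠ x := by
    by_contra hno
    push Not at hno
    exact hxM (mem_sing.mpr ⟨hxZ, hno⟩)
  have hadj : G.Adj x y := hM.1 x hxZ y hy hyx.symm hyM.symm
  have hyN : y ∉ sing Z N := fun h => hN.not_adj_sing hx h hadj
  have hNxy : N y ≠ N x := fun h => hyx ((mem_sing.mp hx).2 y hy h)
  have hyt : t ≠ y := fun h => hyN (h ▸ ht)
  set N' := Function.update N y (N x) with hN'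
  have hN'o : Opt G Z N' := hN.move hx hadj
  have hN'y : N' y = N x := by simp [hN']
  have hN'a : ∀ a, a ≠ y → N' a = N a := fun a ha => by simp [hN', ha]
  have ht' : t ∈ sing Z N' := by
    refine mem_sing.mpr ⟨(mem_sing.mp ht).1, fun a ha hac => ?_⟩
    rw [hN'a t hyt] at hac
    by_cases hay : a = y
    · rw [hay, hN'y] at hac
      exact absurd ((mem_sing.mp ht).2 x hxZ hac) hxt
    · rw [hN'a a hay] at hac
      exact (mem_sing.mp ht).2 a ha hac
  have hx' : x ∉ sing Z N' := fun h =>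
    hyx ((mem_sing.mp h).2 y hy (by rw [hN'y, hN'a x hyx.symm]))
  have hy' : y ∉ sing Z N' := fun h =>
    hyx ((mem_sing.mp h).2 x hxZ (by rw [hN'y, hN'a x hyx.symm])).symm
  have hnew : ∀ z ∈ sing Z N', z ∉ sing Z N → N z = N y := by
    intro z hz hzN
    have hzy : z ≠ y := fun h => hy' (h ▸ hz)
    by_contra hne
    refine hzN (mem_sing.mpr ⟨(mem_sing.mp hz).1, fun a ha hac => ?_⟩)
    have hay : a ≠ y := fun h => hne (by rw [← hac, h])
    exact (mem_sing.mp hz).2 a ha (by rw [hN'a a hay, hN'a z hzy, hac])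
  refine ⟨N', hN'o, ht', ?_⟩
  by_cases hex : ∃ z ∈ sing Z N', z ∉ sing Z N
  · obtain ⟨z, hz, hzN⟩ := hex
    have hzy : z ≠ y := fun h => hy' (h ▸ hz)
    have hzx : z ≠ x := fun h => hx' (h ▸ hz)
    have hzZ := (mem_sing.mp hz).1
    have hNz := hnew z hz hzN
    have huniq : ∀ a ∈ Z, a ≠ y → N a = N y → a = z := fun a ha hay hac =>
      (mem_sing.mp hz).2 a ha (by rw [hN'a a hay, hN'a z hzy, hac, hNz])
    right
    constructor
    · have hsub : sing Z N' ⊆ insert z ((sing Z N).erase x) := by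
        intro a ha
        by_cases haN : a ∈ sing Z N
        · exact mem_insert_of_mem (mem_erase.mpr ⟨fun h => hx' (h ▸ ha), haN⟩)
        · have hay : a ≠ y := fun h => hy' (h ▸ ha)
          rw [huniq a (mem_sing.mp ha).1 hay (hnew a ha haN)]
          exact mem_insert_self _ _
      have h1 := (card_le_card hsub).trans (card_insert_le _ _)
      have h2 := card_erase_lt_of_mem hx
      omega
    · have hMz : M z ≠ M y := by
        intro hMz
        refine hN'o.no_absorb hxZ hzx.symm hz fun a ha haz hac => ?_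
        rw [hN'a x hyx.symm] at hac
        by_cases hay : a = y
        · rw [hay]
          exact hM.1 z hzZ y hy hzy hMz
        · rw [hN'a a hay] at hac
          rw [(mem_sing.mp hx).2 a ha hac]
          exact hM.1 z hzZ x hxZ hzx (hMz.trans hyM)
      refine card_lt_card ⟨fun p hp => ?_, fun hsub => ?_⟩
      · simp only [mem_filter, mem_product] at hp ⊢
        refine ⟨hp.1, hp.2.1, fun hNN => hp.2.2 ?_⟩
        by_cases h1 : p.1 = y <;> by_cases h2 : p.2 = y
        · rw [h1, h2]
        · have := huniq p.2 hp.1.2 h2 (by rw [← hNN, h1])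
          exact absurd (by rw [← this, ← h1]; exact hp.2.1.symm) hMz
        · have := huniq p.1 hp.1.1 h1 (by rw [hNN, h2])
          exact absurd (by rw [← this, ← h2]; exact hp.2.1) hMz
        · rw [hN'a _ h1, hN'a _ h2, hNN]
      · have : (x, y) ∈ (Z ×ˢ Z).filter (fun p => M p.1 = M p.2 ∧ N' p.1 ≠ N' p.2) :=
          hsub (mem_filter.mpr ⟨mem_product.mpr ⟨hxZ, hy⟩, hyM.symm, hNxy.symm⟩)
        exact (mem_filter.mp this).2.2 (by rw [hN'y, hN'a x hyx.symm])
  · left
    push Not at hex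
    have hsub : sing Z N' ⊆ (sing Z N).erase x := fun a ha =>
      mem_erase.mpr ⟨fun h => hx' (h ▸ ha), hex a ha⟩
    exact lt_of_le_of_lt (card_le_card hsub) (card_erase_lt_of_mem hx)

lemma card_bound_sing (Z : Finset V) (c : V → ℕ) :
    2 * (Z.image c).card ≤ Z.card + (sing Z c).card := by
  have h1 : Z.card = ∑ i ∈ Z.image c, (Z.filter (fun x => c x = i)).card :=
    card_eq_sum_card_image c Z
  have h2 : (sing Z c).card = ∑ i ∈ Z.image c, ((sing Z c).filter (fun x => c x = i)).card :=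
    card_eq_sum_card_fiberwise fun x hx => mem_image_of_mem c (mem_sing.mp hx).1
  rw [h1, h2, ← sum_add_distrib, mul_comm, ← smul_eq_mul, ← sum_const]
  refine sum_le_sum fun i hi => ?_
  obtain ⟨x, hx, rfl⟩ := mem_image.mp hi
  by_cases hs : x ∈ sing Z c
  · have a1 : 1 ≤ (Z.filter (fun a => c a = c x)).card :=
      card_pos.mpr ⟨x, mem_filter.mpr ⟨hx, rfl⟩⟩
    have a2 : 1 ≤ ((sing Z c).filter (fun a => c a = c x)).card :=
      card_pos.mpr ⟨x, mem_filter.mpr ⟨hs, rfl⟩⟩
    omega
  · obtain ⟨y, hy, hyc, hyx⟩ : ∃ y ∈ Z, c y = c x ∧ y ≠ x := by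
      by_contra hno
      push Not at hno
      exact hs (mem_sing.mpr ⟨hx, hno⟩)
    have : 1 < (Z.filter (fun a => c a = c x)).card :=
      one_lt_card.mpr ⟨y, mem_filter.mpr ⟨hy, hyc⟩, x, mem_filter.mpr ⟨hx, rfl⟩, hyx⟩
    omega

/-- The theorem of Gallai on critical graphs with connected complement. -/
theorem gallai {Z : Finset V} (hconn : Conn G Z) (hcrit : Crit G Z) :
    2 * theta G Z ≤ Z.card + 1 := by
  obtain ⟨c0, hc0⟩ := exists_opt (G := G) Z
  obtain ⟨M0, hM0, hmin⟩ := exists_min_nat {c | Opt G Z c} (fun c => (sing Z c).card) ⟨c0, hc0⟩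
  set m := (sing Z M0).card with hm
  by_cases hm1 : m ≤ 1
  · have := card_bound_sing Z M0
    rw [hM0.2] at this
    omega
  exfalso
  obtain ⟨u0, hu0, v, hv, huv⟩ := one_lt_card.mp (not_le.mp hm1)
  have key := hconn (fun u => ∃ M, Opt G Z M ∧ (sing Z M).card = m ∧ u ∈ sing Z M ∧
      v ∈ sing Z M ∧ u ≠ v) ⟨u0, (mem_sing.mp hu0).1, M0, hM0, rfl, hu0, hv, huv⟩ ?_ v
      (mem_sing.mp hv).1
  · obtain ⟨_, -, -, -, -, h⟩ := key
    exact h rfl
  rintro u hu ⟨M, hM, hMm, huM, hvM, huv⟩ t ht hadj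
  by_contra hno
  have htv : t ≠ v := fun h => hM.not_adj_sing huM hvM (h ▸ hadj)
  obtain ⟨N1, hN1, hmin1⟩ := exists_min_nat {c | Opt G Z c ∧ t ∈ sing Z c}
    (fun c => (sing Z c).card) (exists_opt_sing hcrit ht)
  obtain ⟨N, ⟨hN, htN, hNc⟩, hmin2⟩ := exists_min_nat
    {c | Opt G Z c ∧ t ∈ sing Z c ∧ (sing Z c).card = (sing Z N1).card}
    (fun c => dis Z M c) ⟨N1, hN1.1, hN1.2, rfl⟩
  have huN : u ∉ sing Z N := fun h => hN.not_adj_sing h htN hadj
  have htM : t ∉ sing Z M := fun h => hM.not_adj_sing huM h hadj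
  have hge : m ≤ (sing Z N).card := hmin N hN
  obtain ⟨x, hxN, hxM, hxt⟩ : ∃ x ∈ sing Z N, x ∉ sing Z M ∧ x ≠ t := by
    by_contra hnx
    push Not at hnx
    by_cases hvN : v ∈ sing Z N
    · have hsub : sing Z N ⊆ insert t ((sing Z M).erase u) := by
        intro a ha
        by_cases haM : a ∈ sing Z M
        · exact mem_insert_of_mem (mem_erase.mpr ⟨fun h => huN (h ▸ ha), haM⟩)
        · rw [hnx a ha haM]
          exact mem_insert_self _ _
      have h1 := (card_le_card hsub).trans (card_insert_le _ _)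
      have h2 := card_erase_lt_of_mem huM
      exact hno ⟨N, hN, by omega, htN, hvN, htv⟩
    · have hsub : sing Z N ⊆ insert t (((sing Z M).erase u).erase v) := by
        intro a ha
        by_cases haM : a ∈ sing Z M
        · exact mem_insert_of_mem (mem_erase.mpr ⟨fun h => hvN (h ▸ ha),
            mem_erase.mpr ⟨fun h => huN (h ▸ ha), haM⟩⟩)
        · rw [hnx a ha haM]
          exact mem_insert_self _ _
      have h1 := (card_le_card hsub).trans (card_insert_le _ _)
      have h2 := card_erase_lt_of_mem huM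
      have h3 := card_erase_lt_of_mem (mem_erase.mpr ⟨huv.symm, hvM⟩ : v ∈ (sing Z M).erase u)
      omega
  obtain ⟨N', hN', htN', h | ⟨h1, h2⟩⟩ := exchange hM hN htN hxN hxM hxt
  · have := hmin1 N' ⟨hN', htN'⟩
    omega
  · have h3 := hmin1 N' ⟨hN', htN'⟩
    have := hmin2 N' ⟨hN', htN', by omega⟩
    omega

end Pool.Agent.Lib.MP_691331_co
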