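import Pool.Agent.Lib.MP_691331_co.GpDefs

set_option autoImplicit false

namespace Pool.Agent.Lib.MP_691331_co

open SimpleGraph

variable {V : Type} {G : SimpleGraph V}

variable (G) in
/-- Independent and in general position. -/
def Good (X : Set V) : Prop := G.IsIndepSet X ∧ GenPos G X

variable (G) in
/-- Having a common neighbour. -/
def CN (a b : V) : Prop := ∃ z, G.Adj a z ∧ G.Adj z b

lemma CN.symm {a b : V} (h : CN G a b) : CN G b a := by
  obtain ⟨z, h1, h2⟩ := h
  exact ⟨z, h2.symm, h1.symm⟩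

lemma Good.mono {X Y : Set V} (h : Good G X) (hY : Y ⊆ X) : Good G Y := by
  refine ⟨h.1.mono hY, fun u hu v hv huv p hp hs => ?_⟩
  have := h.2 u (hY hu) v (hY hv) huv p hp hs
  ext w
  constructor
  · rintro ⟨h1, h2⟩
    rw [← this]
    exact ⟨h1, hY h2⟩
  · rintro (rfl | rfl)
    · exact ⟨p.start_mem_support, hu⟩
    · exact ⟨p.end_mem_support, hv⟩

lemma chiGp_le_of_cover {ι : Type} [Fintype ι] (C : ι → Set V) (hC : ∀ i, Good G (C i))
    (hcov : ∀ v, ∃ i, v ∈ C i) : chiGp G ≤ Fintype.card ι := by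
  choose f hf using hcov
  refine Nat.sInf_le ⟨fun v => Fintype.equivFin ι (f v), fun i => ?_⟩
  refine (hC ((Fintype.equivFin ι).symm i)).mono fun v hv => ?_
  have : Fintype.equivFin ι (f v) = i := hv
  rw [← this, Equiv.symm_apply_apply]
  exact hf v

lemma genPos_of {X : Set V}
    (h : ∀ u ∈ X, ∀ v ∈ X, ∀ w ∈ X, u ≠ v → w ≠ u → w ≠ v →
      ∀ (p1 : G.Walk u w) (p2 : G.Walk w v),
        (∀ q : G.Walk u v, p1.length + p2.length ≤ q.length) → False) : GenPos G X := by
  classical
  intro u hu v hv huv p _ hs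
  ext w
  constructor
  · rintro ⟨h1, h2⟩
    by_contra hno
    simp only [Set.mem_insert_iff, Set.mem_singleton_iff, not_or] at hno
    refine h u hu v hv w h2 huv hno.1 hno.2 (p.takeUntil w h1) (p.dropUntil w h1) fun q => ?_
    rw [← Walk.length_append, Walk.take_spec]
    exact (hs q.bypass q.bypass_isPath).trans q.length_bypass_le_length
  · rintro (rfl | rfl)
    · exact ⟨p.start_mem_support, hu⟩
    · exact ⟨p.end_mem_support, hv⟩

lemma two_le_length {a b : V} (p : G.Walk a b) (hab : a ≠ b) (hn : ¬ G.Adj a b) :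
    2 ≤ p.length := by
  cases p with
  | nil => exact absurd rfl hab
  | cons h q =>
    cases q with
    | nil => exact absurd h hn
    | cons h' q' => simp

lemma cn_of_length {a b : V} (p : G.Walk a b) (hp : p.length = 2) : CN G a b := by
  cases p with
  | nil => simp at hp
  | cons h q =>
    cases q with
    | nil => simp at hp
    | cons h' q' =>
      cases q' with
      | nil => exact ⟨_, h, h'⟩
      | cons h'' q'' => simp at hp

lemma good_of_star {X : Set V} (hi : G.IsIndepSet X) (y : V)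
    (h1 : ∀ u ∈ X, G.Adj y u ∨ CN G y u)
    (h2 : ∀ u ∈ X, ∀ v ∈ X, ∀ w ∈ X, u ≠ v → w ≠ u → w ≠ v → CN G u w → CN G w v →
      G.Adj y u ∨ G.Adj y v) : Good G X := by
  refine ⟨hi, genPos_of fun u hu v hv w hw huv hwu hwv p1 p2 hq => ?_⟩
  have hw1 : ∀ a ∈ X, ∃ q : G.Walk y a, q.length ≤ 2 ∧ (G.Adj y a → q.length ≤ 1) := by
    intro a ha
    by_cases hadj : G.Adj y a
    · exact ⟨hadj.toWalk, by simp, fun _ => by simp⟩
    · obtain ⟨z, hz1, hz2⟩ := (h1 a ha).resolve_left hadj
      exact ⟨.cons hz1 hz2.toWalk, by simp, fun h => absurd h hadj⟩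
  obtain ⟨qu, hu1, hu2⟩ := hw1 u hu
  obtain ⟨qv, hv1, hv2⟩ := hw1 v hv
  have h3 := hq (qu.reverse.append qv)
  rw [Walk.length_append, Walk.length_reverse] at h3
  have h4 := two_le_length p1 hwu.symm (hi hu hw hwu.symm)
  have h5 := two_le_length p2 hwv (hi hw hv hwv)
  rcases h2 u hu v hv w hw huv hwu hwv (cn_of_length p1 (by omega)) (cn_of_length p2 (by omega))
    with h | h
  · have := hu2 h
    omega
  · have := hv2 h
    omega

lemma good_of_two {X : Set V} (hi : G.IsIndepSet X)
    (h : ∀ u ∈ X, ∀ v ∈ X, ∀ w ∈ X, u ≠ v → w ≠ u → w ≠ v → False) : Good G X :=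
  ⟨hi, genPos_of fun u hu v hv w hw huv hwu hwv _ _ _ => h u hu v hv w hw huv hwu hwv⟩

lemma good_of_unreach {X : Set V} (h : ∀ u ∈ X, ∀ v ∈ X, G.Reachable u v → u = v) :
    Good G X :=
  ⟨fun u hu v hv huv hadj => huv (h u hu v hv hadj.reachable),
    genPos_of fun u hu _ _ w hw _ hwu _ p1 _ _ => hwu (h u hu w hw ⟨p1⟩).symm⟩

/-- One of G and its complement has all independent sets in general position. -/
lemma dichotomy (G : SimpleGraph V) :
    (∀ X, G.IsIndepSet X → GenPos G X) ∨ (∀ X, Gᶜ.IsIndepSet X → GenPos Gᶜ X) := by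
  by_cases h : ∀ X, G.IsIndepSet X → GenPos G X
  · exact Or.inl h
  right
  push Not at h
  obtain ⟨X, hi, hX⟩ := h
  obtain ⟨u, v, huv⟩ : ∃ u v : V, ∀ q : G.Walk u v, 4 ≤ q.length := by
    by_contra hno
    push Not at hno
    refine hX (genPos_of fun u hu v hv w hw huv hwu hwv p1 p2 hq => ?_)
    obtain ⟨q, hq'⟩ := hno u v
    have h3 := hq q
    have h4 := two_le_length p1 hwu.symm (hi hu hw hwu.symm)
    have h5 := two_le_length p2 hwv (hi hw hv hwv)
    omega
  have near : ∀ {a b : V}, ¬ Gᶜ.Adj a b → ∃ q : G.Walk a b, q.length ≤ 1 := by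
    intro a b hab
    by_cases h1 : a = b
    · subst h1
      exact ⟨.nil, by simp⟩
    · have : G.Adj a b := by
        by_contra hn
        exact hab ((compl_adj G a b).mpr ⟨h1, hn⟩)
      exact ⟨this.toWalk, by simp⟩
  intro Y hY
  refine genPos_of fun a ha b hb w hw hab hwa hwb p1 p2 hq => ?_
  have h4 := two_le_length p1 hwa.symm (hY ha hw hwa.symm)
  have h5 := two_le_length p2 hwb (hY hw hb hwb)
  have hcn : CN Gᶜ a b := by
    by_contra hno
    have hu : ¬ Gᶜ.Adj u a ∨ ¬ Gᶜ.Adj u b := by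
      by_contra hh
      push Not at hh
      exact hno ⟨u, hh.1.symm, hh.2⟩
    have hv : ¬ Gᶜ.Adj a v ∨ ¬ Gᶜ.Adj b v := by
      by_contra hh
      push Not at hh
      exact hno ⟨v, hh.1, hh.2.symm⟩
    obtain ⟨q0, hq0⟩ := near (hY ha hb hab)
    rcases hu with hu | hu <;> rcases hv with hv | hv <;> obtain ⟨q1, hq1⟩ := near hu <;>
      obtain ⟨q2, hq2⟩ := near hv
    · have := huv (q1.append q2)
      rw [Walk.length_append] at this
      omega
    · have := huv (q1.append (q0.append q2))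
      rw [Walk.length_append, Walk.length_append] at this
      omega
    · have := huv (q1.append (q0.reverse.append q2))
      rw [Walk.length_append, Walk.length_append, Walk.length_reverse] at this
      omega
    · have := huv (q1.append q2)
      rw [Walk.length_append] at this
      omega
  obtain ⟨z, hz1, hz2⟩ := hcn
  have := hq (.cons hz1 hz2.toWalk)
  simp at this
  omega

end Pool.Agent.Lib.MP_691331_co
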