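import Pool.Agent.Lib.MP_691331_co.Gallai

set_option autoImplicit false

namespace Pool.Agent.Lib.MP_691331_co

open Finset

variable {V : Type} [DecidableEq V] {G : SimpleGraph V}

variable (G) in
/-- An involution supported on Y that pairs non-adjacent vertices. -/
def Pairing (Y : Finset V) (π : V → V) : Prop :=
  (∀ x, π (π x) = x) ∧ (∀ x, x ∉ Y → π x = x) ∧ ∀ x, ¬ G.Adj x (π x)

/-- The number of paired vertices. -/
def psize (Y : Finset V) (π : V → V) : ℕ := (Y.filter (fun x => π x ≠ x)).card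

omit [DecidableEq V] in
lemma Pairing.mem {Y : Finset V} {π : V → V} (h : Pairing G Y π) {x : V} (hx : x ∈ Y) :
    π x ∈ Y := by
  by_contra hn
  have := h.2.1 _ hn
  rw [h.1] at this
  exact hn (this ▸ hx)

omit [DecidableEq V] in
lemma Pairing.inj {Y : Finset V} {π : V → V} (h : Pairing G Y π) : Function.Injective π :=
  Function.Involutive.injective h.1

lemma Pairing.add {Y : Finset V} {π : V → V} (h : Pairing G Y π) {a b : V} (ha : a ∈ Y)
    (hb : b ∈ Y) (hab : a ≠ b) (hπa : π a = a) (hπb : π b = b) (hn : ¬ G.Adj a b) :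
    ∃ π', Pairing G Y π' ∧ psize Y π' = psize Y π + 2 ∧ ∀ z, z ≠ a → z ≠ b → π' z = π z := by
  refine ⟨fun z => if z = a then b else if z = b then a else π z, ⟨fun x => ?_, fun x hx => ?_,
    fun x => ?_⟩, ?_, fun z h1 h2 => by simp [h1, h2]⟩
  · by_cases h1 : x = a
    · simp [h1, hab.symm]
    by_cases h2 : x = b
    · simp [h2, hab.symm]
    have h3 : π x ≠ a := fun hh => h1 (h.inj (hh.trans hπa.symm))
    have h4 : π x ≠ b := fun hh => h2 (h.inj (hh.trans hπb.symm))
    simp [h1, h2, h3, h4, h.1 x]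
  · have h1 : x ≠ a := fun hh => hx (hh ▸ ha)
    have h2 : x ≠ b := fun hh => hx (hh ▸ hb)
    simp [h1, h2, h.2.1 x hx]
  · by_cases h1 : x = a
    · simpa [h1] using hn
    by_cases h2 : x = b
    · simpa [h2, hab.symm] using fun hh : G.Adj b a => hn hh.symm
    simpa [h1, h2] using h.2.2 x
  · unfold psize
    have : Y.filter (fun x => (if x = a then b else if x = b then a else π x) ≠ x) =
        insert a (insert b (Y.filter (fun x => π x ≠ x))) := by
      ext x
      simp only [mem_filter, mem_insert]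
      by_cases h1 : x = a
      · simp [h1, ha, hab.symm]
      by_cases h2 : x = b
      · simp [h2, hb, hab.symm, hab]
      simp [h1, h2]
    rw [this, card_insert_of_notMem, card_insert_of_notMem]
    · simp [hπb]
    · simp [hπa, hab]

lemma Pairing.rem {Y : Finset V} {π : V → V} (h : Pairing G Y π) {a : V} (hπa : π a ≠ a) :
    ∃ π', Pairing G Y π' ∧ psize Y π' + 2 = psize Y π ∧ π' a = a ∧ π' (π a) = π a ∧
      ∀ z, z ≠ a → z ≠ π a → π' z = π z := by
  have ha : a ∈ Y := by
    by_contra hn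
    exact hπa (h.2.1 a hn)
  refine ⟨fun z => if z = a ∨ z = π a then z else π z, ⟨fun x => ?_, fun x hx => ?_,
    fun x => ?_⟩, ?_, by simp, by simp, fun z h1 h2 => by simp [h1, h2]⟩
  · by_cases h1 : x = a ∨ x = π a
    · simp [h1]
    have h3 : ¬ (π x = a ∨ π x = π a) := by
      rintro (hh | hh)
      · exact h1 (Or.inr (by rw [← hh, h.1]))
      · exact h1 (Or.inl (h.inj hh))
    simp [h1, h3, h.1 x]
  · by_cases h1 : x = a ∨ x = π a
    · simp [h1]
    · simp [h1, h.2.1 x hx]
  · by_cases h1 : x = a ∨ x = π a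
    · simp [h1]
    · simpa [h1] using h.2.2 x
  · unfold psize
    have : Y.filter (fun x => π x ≠ x) = insert a (insert (π a)
        (Y.filter (fun x => (if x = a ∨ x = π a then x else π x) ≠ x))) := by
      ext x
      simp only [mem_filter, mem_insert]
      by_cases h1 : x = a
      · simp [h1, ha, hπa]
      by_cases h2 : x = π a
      · simp [h2, h.mem ha, h.1, hπa.symm]
      simp [h1, h2]
    rw [this, card_insert_of_notMem, card_insert_of_notMem]
    · simp
    · simp [hπa.symm]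

lemma Pairing.reps {Y : Finset V} {π : V → V} (h : Pairing G Y π) :
    ∃ O ⊆ Y, (∀ x ∈ Y, x ∈ O ∨ π x ∈ O) ∧ 2 * O.card + psize Y π = 2 * Y.card := by
  obtain ⟨e, he⟩ : ∃ e : V → ℕ, ∀ x ∈ Y, ∀ y ∈ Y, e x = e y → x = y := by
    refine ⟨fun x => if h : x ∈ Y then (Y.equivFin ⟨x, h⟩ : ℕ) else 0, ?_⟩
    intro x hx y hy h
    simp only [hx, hy, dif_pos] at h
    exact congrArg Subtype.val (Y.equivFin.injective (Fin.ext h))
  refine ⟨Y.filter (fun x => e x ≤ e (π x)), filter_subset _ _, fun x hx => ?_, ?_⟩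
  · simp only [mem_filter, hx, h.mem hx, true_and, h.1]
    omega
  · have h1 := card_filter_add_card_filter_not (s := Y) (fun x => e x ≤ e (π x))
    have h2 : (Y.filter (fun x => ¬ e x ≤ e (π x))).card =
        (Y.filter (fun x => e x < e (π x))).card := by
      refine card_bij (fun x _ => π x) (fun x hx => ?_) (fun x _ y _ hxy => h.inj hxy)
        (fun y hy => ⟨π y, ?_, h.1 y⟩)
      · simp only [mem_filter] at hx ⊢
        exact ⟨h.mem hx.1, by rw [h.1]; omega⟩
      · simp only [mem_filter] at hy ⊢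
        exact ⟨h.mem hy.1, by rw [h.1]; omega⟩
    have h3 : psize Y π = (Y.filter (fun x => ¬ e x ≤ e (π x))).card +
        (Y.filter (fun x => e x < e (π x))).card := by
      unfold psize
      rw [← card_union_of_disjoint]
      · congr 1
        ext x
        simp only [mem_filter, mem_union]
        constructor
        · rintro ⟨hx, hne⟩
          have : e x ≠ e (π x) := fun hh => hne (he x hx _ (h.mem hx) hh).symm
          by_cases hlt : e x < e (π x)
          · exact Or.inr ⟨hx, hlt⟩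
          · exact Or.inl ⟨hx, by omega⟩
        · rintro (⟨hx, hh⟩ | ⟨hx, hh⟩)
          · exact ⟨hx, fun h' => hh (by rw [h'])⟩
          · exact ⟨hx, fun h' => by rw [h'] at hh; omega⟩
      · rw [disjoint_left]
        intro x hx hx'
        simp only [mem_filter] at hx hx'
        omega
    omega

/-- A connected critical set minus a vertex has a large pairing. -/
theorem exists_pairing {Z : Finset V} (hconn : Conn G Z) (hcrit : Crit G Z) {v : V}
    (hv : v ∈ Z) : ∃ π, Pairing G (Z.erase v) π ∧ 2 * theta G Z ≤ psize (Z.erase v) π + 2 := by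
  classical
  set Y := Z.erase v with hY
  obtain ⟨π0, hπ0, hmax⟩ := exists_min_nat {π | Pairing G Y π} (fun π => Y.card - psize Y π)
    ⟨id, fun _ => rfl, fun _ _ => rfl, fun x => G.irrefl⟩
  have hle : ∀ π, psize Y π ≤ Y.card := fun π => card_filter_le _ _
  have hmax' : ∀ π, Pairing G Y π → psize Y π ≤ psize Y π0 := by
    intro π hπ
    have h1 := hmax π hπ
    have h2 := hle π
    have h3 := hle π0
    omega
  refine ⟨π0, hπ0, ?_⟩
  by_contra hlt
  obtain ⟨O, -, -, hO⟩ := hπ0.reps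
  have hg := gallai hconn hcrit
  have hYc : Y.card + 1 = Z.card := card_erase_add_one hv
  have hN : psize Y π0 + 4 ≤ 2 * theta G Z := by omega
  -- every maximum pairing has two fixed points
  have htwo : ∀ π, psize Y π = psize Y π0 → ∀ u, ∃ u' ∈ Y, π u' = u' ∧ u' ≠ u := by
    intro π hπ u
    have h1 := card_filter_add_card_filter_not (s := Y) (fun x => π x ≠ x)
    have h2 : 1 < (Y.filter (fun x => ¬ π x ≠ x)).card := by
      unfold psize at hπ hN
      omega
    obtain ⟨a, ha, b, hb, hab⟩ := one_lt_card.mp h2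
    simp only [mem_filter, not_not] at ha hb
    by_cases hau : a = u
    · exact ⟨b, hb.1, hb.2, fun h => hab (hau.trans h.symm)⟩
    · exact ⟨a, ha.1, ha.2, hau⟩
  obtain ⟨u0, hu0, hπu0, -⟩ := htwo π0 rfl v
  have key := hconn (fun u => u ∈ Y ∧ ∃ π, Pairing G Y π ∧ psize Y π = psize Y π0 ∧ π u = u)
    ⟨u0, mem_of_mem_erase hu0, hu0, π0, hπ0, rfl, hπu0⟩ ?_ v hv
  · exact (mem_erase.mp key.1).1 rfl
  rintro u hu ⟨huY, π, hπ, hsz, hπu⟩ t ht hadj
  obtain ⟨u', hu'Y, hπu', hne⟩ := htwo π hsz u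
  have hfix : ∀ a ∈ Y, ∀ b ∈ Y, a ≠ b → π a = a → π b = b → G.Adj a b := by
    intro a ha b hb hab h1 h2
    by_contra hn
    obtain ⟨π', hπ', hs, -⟩ := hπ.add ha hb hab h1 h2 hn
    have := hmax' π' hπ'
    omega
  set Mt := Y.filter (fun x => π x ≠ x) with hMt
  have hMtc : Mt.card = psize Y π := rfl
  have hcross : ∀ x ∈ Mt, ¬ G.Adj u x → G.Adj u' (π x) := by
    intro x hx hux
    obtain ⟨hxY, hxπ⟩ := mem_filter.mp hx
    by_contra hn
    obtain ⟨π1, hπ1, hs1, h1a, h1b, h1c⟩ := hπ.rem hxπ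
    have hux' : u ≠ x := fun h => hxπ (h ▸ hπu)
    have huπ : u ≠ π x := fun h => hux' (hπ.inj (hπu.trans h))
    have hu'x : u' ≠ x := fun h => hxπ (h ▸ hπu')
    have hu'π : u' ≠ π x := fun h => hu'x (hπ.inj (hπu'.trans h))
    obtain ⟨π2, hπ2, hs2, h2c⟩ := hπ1.add huY hxY hux' (by rw [h1c u hux' huπ, hπu]) h1a hux
    obtain ⟨π3, hπ3, hs3, -⟩ := hπ2.add hu'Y (hπ.mem hxY) hu'π
      (by rw [h2c u' hne hu'x, h1c u' hu'x hu'π, hπu']) (by rw [h2c _ huπ.symm hxπ, h1b]) hn
    have := hmax' π3 hπ3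
    omega
  have hnn : ∀ a ∈ Y, π a = a → theta G Z ≤ (Mt.filter (fun y => ¬ G.Adj a y)).card +
      (if G.Adj a v then 1 else 2) := by
    intro a ha hπa
    have h1 := crit_nonnbr hcrit (mem_of_mem_erase ha)
    have hsub : ∀ y ∈ (Z.erase a).filter (fun y => ¬ G.Adj a y), y ≠ v →
        y ∈ Mt.filter (fun y => ¬ G.Adj a y) := by
      intro y hy hyv
      obtain ⟨hy1, hy2⟩ := mem_filter.mp hy
      have hyY : y ∈ Y := mem_erase.mpr ⟨hyv, mem_of_mem_erase hy1⟩
      refine mem_filter.mpr ⟨mem_filter.mpr ⟨hyY, fun hπy => hy2 ?_⟩, hy2⟩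
      exact hfix a ha y hyY (mem_erase.mp hy1).1.symm hπa hπy
    split_ifs with hav
    · have : (Z.erase a).filter (fun y => ¬ G.Adj a y) ⊆ Mt.filter (fun y => ¬ G.Adj a y) :=
        fun y hy => hsub y hy (fun h => (mem_filter.mp hy).2 (h ▸ hav))
      have := card_le_card this
      omega
    · have : (Z.erase a).filter (fun y => ¬ G.Adj a y) ⊆
          insert v (Mt.filter (fun y => ¬ G.Adj a y)) := by
        intro y hy
        by_cases hyv : y = v
        · rw [hyv]
          exact mem_insert_self _ _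
        · exact mem_insert_of_mem (hsub y hy hyv)
      have := (card_le_card this).trans (card_insert_le _ _)
      omega
  have hMtπ : ∀ x ∈ Mt, π x ∈ Mt := by
    intro x hx
    obtain ⟨hxY, hxπ⟩ := mem_filter.mp hx
    exact mem_filter.mpr ⟨hπ.mem hxY, by rw [hπ.1]; exact hxπ.symm⟩
  set A := Mt.filter (fun y => ¬ G.Adj u y) with hA
  set B := (Mt.filter (fun y => ¬ G.Adj u' y)).image π with hB
  have hBc : B.card = (Mt.filter (fun y => ¬ G.Adj u' y)).card :=
    card_image_of_injective _ hπ.inj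
  have hdisj : Disjoint A B := by
    rw [disjoint_left]
    intro x hx hx'
    obtain ⟨y, hy, rfl⟩ := mem_image.mp hx'
    have := hcross _ (mem_filter.mp hx).1 (mem_filter.mp hx).2
    rw [hπ.1] at this
    exact (mem_filter.mp hy).2 this
  have hsubAB : A ∪ B ⊆ Mt := by
    intro x hx
    rcases mem_union.mp hx with hx | hx
    · exact (mem_filter.mp hx).1
    · obtain ⟨y, hy, rfl⟩ := mem_image.mp hx
      exact hMtπ y (mem_filter.mp hy).1
  have hc1 := card_le_card hsubAB
  rw [card_union_of_disjoint hdisj] at hc1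
  have h1 := hnn u huY hπu
  rw [← hA] at h1
  have h2 := hnn u' hu'Y hπu'
  have huv : ¬ G.Adj u v := by
    intro hh
    rw [if_pos hh] at h1
    split_ifs at h2 <;> omega
  have htY : t ∈ Y := mem_erase.mpr ⟨fun h => huv (h ▸ hadj), ht⟩
  refine ⟨htY, ?_⟩
  by_cases hπt : π t = t
  · exact ⟨π, hπ, hsz, hπt⟩
  have heq : A ∪ B = Mt := by
    refine eq_of_subset_of_card_le hsubAB ?_
    rw [card_union_of_disjoint hdisj]
    rw [if_neg huv] at h1
    split_ifs at h2 <;> omega
  have htB : t ∈ B := by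
    have : t ∈ A ∪ B := heq ▸ mem_filter.mpr ⟨htY, hπt⟩
    rcases mem_union.mp this with h | h
    · exact absurd hadj (mem_filter.mp h).2
    · exact h
  obtain ⟨y, hy, hyt⟩ := mem_image.mp htB
  have hyπ : π t = y := by rw [← hyt, hπ.1]
  obtain ⟨π1, hπ1, hs1, h1a, h1b, h1c⟩ := hπ.rem hπt
  have hu't : u' ≠ t := fun h => hπt (h ▸ hπu')
  have hu'π : u' ≠ π t := fun h => hu't (hπ.inj (hπu'.trans h))
  obtain ⟨π2, hπ2, hs2, h2c⟩ := hπ1.add hu'Y (hπ.mem htY) hu'π
    (by rw [h1c u' hu't hu'π, hπu']) h1b (by rw [hyπ]; exact (mem_filter.mp hy).2)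
  exact ⟨π2, hπ2, by omega, by rw [h2c t hu't.symm (Ne.symm hπt), h1a]⟩

/-- The pairings of all components put together. -/
theorem exists_global_pairing {Z : Finset V} (hcrit : Crit G Z) (v0 : Finset V → V)
    (hv0 : ∀ x ∈ Z, v0 (comp G Z x) ∈ comp G Z x) :
    ∃ (π : V → V) (O : Finset V), (∀ x, π (π x) = x) ∧ (∀ x, ¬ G.Adj x (π x)) ∧
      (∀ x ∈ Z, π x ∈ comp G Z x) ∧ (∀ x ∈ Z, π (v0 (comp G Z x)) = v0 (comp G Z x)) ∧
      (∀ x ∈ Z, x ≠ v0 (comp G Z x) → x ∈ O ∨ π x ∈ O) ∧ O.card + theta G Z ≤ Z.card := by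
  classical
  have h1 : ∀ W : Finset V, ∃ π : V → V, W ∈ Z.image (comp G Z) →
      Pairing G (W.erase (v0 W)) π ∧ 2 * theta G W ≤ psize (W.erase (v0 W)) π + 2 := by
    intro W
    by_cases hW : W ∈ Z.image (comp G Z)
    · obtain ⟨x, hx, rfl⟩ := mem_image.mp hW
      obtain ⟨π, hπ⟩ := exists_pairing (conn_comp Z x) (crit_comp hcrit x) (hv0 x hx)
      exact ⟨π, fun _ => hπ⟩
    · exact ⟨id, fun h => absurd h hW⟩
  choose p hp using h1
  have h2 : ∀ W : Finset V, ∃ O : Finset V, W ∈ Z.image (comp G Z) →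
      (∀ x ∈ W.erase (v0 W), x ∈ O ∨ p W x ∈ O) ∧ O.card + theta G W ≤ W.card := by
    intro W
    by_cases hW : W ∈ Z.image (comp G Z)
    · obtain ⟨O, -, hO1, hO2⟩ := (hp W hW).1.reps
      refine ⟨O, fun _ => ⟨hO1, ?_⟩⟩
      obtain ⟨x, hx, rfl⟩ := mem_image.mp hW
      have h3 := card_erase_add_one (hv0 x hx)
      have h4 := (hp _ hW).2
      omega
    · exact ⟨∅, fun h => absurd h hW⟩
  choose o ho using h2
  have hmem : ∀ x ∈ Z, p (comp G Z x) x ∈ comp G Z x := by
    intro x hx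
    have hP := (hp _ (mem_image_of_mem _ hx)).1
    by_cases hxv : x ∈ (comp G Z x).erase (v0 (comp G Z x))
    · exact mem_of_mem_erase (hP.mem hxv)
    · rw [hP.2.1 x hxv]
      exact self_mem_comp hx
  refine ⟨fun x => if x ∈ Z then p (comp G Z x) x else x, (Z.image (comp G Z)).biUnion o,
    fun x => ?_, fun x => ?_, fun x hx => ?_, fun x hx => ?_, fun x hx hne => ?_, ?_⟩
  · by_cases hx : x ∈ Z
    · have h3 := hmem x hx
      simp only [hx, if_true, comp_subset Z x h3, comp_eq h3]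
      exact (hp _ (mem_image_of_mem _ hx)).1.1 x
    · simp [hx]
  · by_cases hx : x ∈ Z
    · simp only [hx, if_true]
      exact (hp _ (mem_image_of_mem _ hx)).1.2.2 x
    · simp [hx]
  · simp only [hx, if_true]
    exact hmem x hx
  · have h3 := hv0 x hx
    simp only [comp_subset Z x h3, if_true, comp_eq h3]
    exact (hp _ (mem_image_of_mem _ hx)).1.2.1 _ (by simp)
  · simp only [hx, if_true, mem_biUnion]
    rcases (ho _ (mem_image_of_mem _ hx)).1 x (mem_erase.mpr ⟨hne, self_mem_comp hx⟩) with h | h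
    · exact Or.inl ⟨_, mem_image_of_mem _ hx, h⟩
    · exact Or.inr ⟨_, mem_image_of_mem _ hx, h⟩
  · have h3 : ((Z.image (comp G Z)).biUnion o).card ≤ ∑ W ∈ Z.image (comp G Z), (o W).card :=
      card_biUnion_le
    have h4 : theta G Z ≤ ∑ W ∈ Z.image (comp G Z), theta G W := by
      refine le_trans (theta_mono fun x hx => ?_) (theta_biUnion_le _)
      exact mem_biUnion.mpr ⟨_, mem_image_of_mem _ hx, self_mem_comp hx⟩
    have h5 : Z.card = ∑ W ∈ Z.image (comp G Z), W.card := by
      rw [card_eq_sum_card_image (comp G Z) Z]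
      refine sum_congr rfl fun W hW => ?_
      obtain ⟨x, hx, rfl⟩ := mem_image.mp hW
      congr 1
      ext y
      simp only [mem_filter]
      exact ⟨fun h => h.2 ▸ self_mem_comp h.1, fun h => ⟨comp_subset Z x h, comp_eq h⟩⟩
    have h6 : ∑ W ∈ Z.image (comp G Z), ((o W).card + theta G W) ≤
        ∑ W ∈ Z.image (comp G Z), W.card := sum_le_sum fun W hW => (ho W hW).2
    rw [sum_add_distrib] at h6
    omega

end Pool.Agent.Lib.MP_691331_co
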