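import Pool.Agent.Lib.MP_691331_co.Star
import Pool.Agent.Lib.MP_691331_co.Pairing

set_option autoImplicit false

namespace Pool.Agent.Lib.MP_691331_co

open Finset

variable {V : Type} {G : SimpleGraph V}

lemma reach_of_comp {S : Finset V} {x y : V} (h : y ∈ comp (sq G) S x) : G.Reachable x y := by
  have h2 := (mem_comp.mp h).2
  clear h
  induction h2 with
  | refl => rfl
  | tail _ hb ih =>
    rcases hb.2.2.2 with h | ⟨z, h1, h2⟩
    · exact ih.trans h.reachable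
    · exact ih.trans (h1.reachable.trans h2.reachable)

lemma exists_base (G : SimpleGraph V) (S : Finset V) :
    ∃ base : V → V, (∀ x, G.Reachable x (base x)) ∧ (∀ x y, G.Reachable x y → base x = base y) ∧
      ∀ x ∈ S, base x ∈ S := by
  have h : ∀ c : G.ConnectedComponent, ∃ b, G.connectedComponentMk b = c ∧
      ((∃ s ∈ S, G.connectedComponentMk s = c) → b ∈ S) := by
    intro c
    by_cases hs : ∃ s ∈ S, G.connectedComponentMk s = c
    · obtain ⟨s, h1, h2⟩ := hs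
      exact ⟨s, h2, fun _ => h1⟩
    · obtain ⟨b, hb⟩ := c.exists_rep
      exact ⟨b, hb, fun h => absurd h hs⟩
  choose b hb using h
  refine ⟨fun x => b (G.connectedComponentMk x), fun x => ?_, fun x y hxy => ?_,
    fun x hx => (hb _).2 ⟨x, hx, rfl⟩⟩
  · exact SimpleGraph.ConnectedComponent.eq.mp (hb _).1.symm
  · simp only [SimpleGraph.ConnectedComponent.eq.mpr hxy]

lemma exists_parent {S Z : Finset V} (hZ : ∀ x, x ∉ S → x ∈ Z) {base : V → V}
    (hb1 : ∀ x, G.Reachable x (base x)) (hb2 : ∀ x y, G.Reachable x y → base x = base y)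
    (hb3 : ∀ x ∈ S, base x ∈ S) {zs : Finset V → V}
    (hzs : ∀ W z, NW G S W z → G.dist (zs W) (base (zs W)) ≤ G.dist z (base z))
    {x0 : V} (hx0 : x0 ∈ S) (hn : base x0 ∉ comp (sq G) S x0) :
    ∃ w ∈ Z, (∃ z ∈ comp (sq G) S x0, NW G S (comp G Z w) z) ∧
      zs (comp G Z w) ∉ comp (sq G) S x0 := by
  obtain ⟨x, hx, hmin⟩ := exists_min_nat {x | x ∈ comp (sq G) S x0}
    (fun x => G.dist x (base x)) ⟨x0, self_mem_comp hx0⟩
  have hxS := comp_subset S x0 hx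
  have hbx : base x = base x0 := (hb2 _ _ (reach_of_comp hx)).symm
  obtain ⟨p, hp⟩ := (hb1 x).exists_walk_length_eq_dist
  have hgen : ∀ (b : V) (p : G.Walk x b), b = base x → p.length = G.dist x (base x) →
      ∃ w ∈ Z, (∃ z ∈ comp (sq G) S x0, NW G S (comp G Z w) z) ∧
        zs (comp G Z w) ∉ comp (sq G) S x0 := by
    intro b p hb hp
    cases p with
    | nil => exact absurd (hbx ▸ hb ▸ hx) hn
    | @cons _ x' _ hadj q =>
      subst hb
      simp only [SimpleGraph.Walk.length_cons] at hp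
      have hx' : x' ∉ S := by
        intro hS
        have h1 := hmin x' (mem_comp_of_adj hx hS ⟨hadj.ne, Or.inl hadj⟩)
        have h2 : base x' = base x := (hb2 _ _ hadj.reachable).symm
        have h3 := SimpleGraph.dist_le q
        simp only [h2] at h1
        omega
      obtain ⟨z, hz, q', hq'⟩ := walk_exit hZ q (hb3 x hxS) hx'
      refine ⟨x', hZ x' hx', ⟨x, hx, hxS, x', self_mem_comp (hZ x' hx'), hadj⟩, fun hmem => ?_⟩
      have h1 := hmin _ hmem
      have h2 := hzs _ z hz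
      have h3 : base z = base x := (hb2 _ _ ⟨q'⟩).trans (hb2 _ _ (hb1 x)).symm
      have h4 := SimpleGraph.dist_le q'
      simp only [h3] at h2
      omega
  exact hgen _ p rfl hp

theorem main_bound [Fintype V] [DecidableEq V] (G : SimpleGraph V) :
    chiGp G + theta G Finset.univ ≤ Fintype.card V + 1 := by
  classical
  rcases isEmpty_or_nonempty V with hV | ⟨⟨a0⟩⟩
  · have h1 := chiGp_le_of_cover (G := G) (ι := Unit) (fun _ => ∅)
      (fun _ => good_of_unreach (by simp)) (fun v => hV.elim v)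
    rw [Finset.eq_empty_of_isEmpty (Finset.univ : Finset V), theta_empty]
    simp only [Fintype.card_unit] at h1
    omega
  obtain ⟨Z, -, hcrit, hθ⟩ := exists_crit (G := G) Finset.univ
  set S : Finset V := Zᶜ with hS
  have hZ : ∀ x, x ∉ S → x ∈ Z := fun x hx => by simpa [hS] using hx
  obtain ⟨base, hb1, hb2, hb3⟩ := exists_base G S
  have e1 : ∀ W : Finset V, ∃ z0, ∀ z, NW G S W z →
      NW G S W z0 ∧ G.dist z0 (base z0) ≤ G.dist z (base z) := by
    intro W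
    by_cases h : ∃ z, NW G S W z
    · obtain ⟨z0, h1, h2⟩ := exists_min_nat {z | NW G S W z} (fun z => G.dist z (base z)) h
      exact ⟨z0, fun z hz => ⟨h1, h2 z hz⟩⟩
    · exact ⟨a0, fun z hz => absurd ⟨z, hz⟩ h⟩
  choose zs hzs using e1
  have e2 : ∀ K : Finset V, ∃ w, ∀ x ∈ S, K = comp (sq G) S x → base x ∉ K →
      w ∈ Z ∧ (∃ z ∈ K, NW G S (comp G Z w) z) ∧ zs (comp G Z w) ∉ K := by
    intro K
    by_cases h : ∃ x ∈ S, K = comp (sq G) S x ∧ base x ∉ K
    · obtain ⟨x, hx, rfl, hn⟩ := h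
      obtain ⟨w, h1, h2, h3⟩ := exists_parent hZ hb1 hb2 hb3 (fun W z hz => (hzs W z hz).2) hx hn
      exact ⟨w, fun _ _ _ _ => ⟨h1, h2, h3⟩⟩
    · exact ⟨a0, fun x hx h1 h2 => absurd ⟨x, hx, h1, h2⟩ h⟩
  choose pw hpw using e2
  have e3 : ∀ K : Finset V, ∃ r, ∀ x ∈ S, K = comp (sq G) S x → r ∈ K ∧
      (base x ∈ K → r = base x) ∧ (base x ∉ K → ∀ y ∈ K,
        ((comp G Z (pw K)).filter (G.Adj r)).card ≤ ((comp G Z (pw K)).filter (G.Adj y)).card) := by
    intro K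
    by_cases h : ∃ x ∈ S, K = comp (sq G) S x
    · obtain ⟨x, hx, rfl⟩ := h
      have hbase : ∀ x' ∈ S, comp (sq G) S x = comp (sq G) S x' → base x' = base x :=
        fun x' hx' h => (hb2 _ _ (reach_of_comp (h ▸ self_mem_comp hx'))).symm
      by_cases hb : base x ∈ comp (sq G) S x
      · exact ⟨base x, fun x' hx' h => ⟨hb, fun _ => (hbase x' hx' h).symm,
          fun hn => absurd (hbase x' hx' h ▸ hb) hn⟩⟩
      · obtain ⟨r, h1, h2⟩ := exists_min_nat {y | y ∈ comp (sq G) S x}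
          (fun y => ((comp G Z (pw (comp (sq G) S x))).filter (G.Adj y)).card)
          ⟨x, self_mem_comp hx⟩
        exact ⟨r, fun x' hx' h => ⟨h1, fun hn => absurd (hbase x' hx' h ▸ hn) hb, fun _ => h2⟩⟩
    · exact ⟨a0, fun x hx h1 => absurd ⟨x, hx, h1⟩ h⟩
  choose rt hrt using e3
  set root : V → V := fun x => rt (comp (sq G) S x) with hroot
  obtain ⟨A, hF⟩ := exists_normalForest (H := sq G) _ S root rfl
    (fun x hx => (hrt _ x hx rfl).1) (fun x _ y hy => by simp only [hroot, comp_eq hy])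
  have e4 : ∀ W : Finset V, ∃ v, ∀ w ∈ Z, W = comp G Z w → v ∈ W ∧
      ((∃ z, NW G S W z) → (∃ y ∈ comp (sq G) S (zs W), G.Adj y v) ∧ Plc G S Z A v) ∧
      ((¬ ∃ z, NW G S W z) → base v = v) := by
    intro W
    by_cases h : ∃ w ∈ Z, W = comp G Z w
    · obtain ⟨w, hw, rfl⟩ := h
      by_cases hN : ∃ z, NW G S (comp G Z w) z
      · obtain ⟨z, hz⟩ := hN
        have h1 := (hzs _ z hz).1
        obtain ⟨y, hy, ⟨hyS, v, hv, hadj⟩, hd⟩ := exists_Wdeepest hF ⟨_, self_mem_comp h1.1, h1⟩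
        refine ⟨v, fun _ _ _ => ⟨hv, fun _ => ⟨⟨y, hy, hadj⟩, ?_⟩, fun hn => absurd ⟨z, hz⟩ hn⟩⟩
        refine plc_of_deepest hF (comp_subset Z w hv) hyS hadj ?_
        rwa [comp_eq hv]
      · have hcl : ∀ a b, G.Walk a b → a ∈ comp G Z w → b ∈ comp G Z w := by
          intro a b p
          induction p with
          | nil => exact id
          | @cons a c d hadj q ih =>
            intro ha
            refine ih (mem_comp_of_adj ha (hZ c fun hc => hN ⟨c, hc, a, ha, hadj.symm⟩) hadj)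
        obtain ⟨p⟩ := hb1 w
        exact ⟨base w, fun _ _ _ => ⟨hcl _ _ p (self_mem_comp hw), fun h => absurd h hN,
          fun _ => (hb2 _ _ (hb1 w)).symm⟩⟩
    · exact ⟨a0, fun x hx h1 => absurd ⟨x, hx, h1⟩ h⟩
  choose v0 hv0 using e4
  obtain ⟨π, O, hinv, hnadj, hπZ, hπ0, hO, hcard⟩ := exists_global_pairing hcrit v0
    (fun x hx => (hv0 _ x hx rfl).1)
  let NR : V → Prop := fun r => r ∈ S ∧ root r = r ∧ base r ≠ r
  have hNR : ∀ r, NR r → base r ∉ comp (sq G) S r := fun r hr hb =>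
    hr.2.2 (((hrt _ r hr.1 rfl).2.1 hb).symm.trans hr.2.1)
  have hNReq : ∀ r r', NR r → NR r' → r' ∈ comp (sq G) S r → r = r' := by
    intro r r' hr hr' h
    rw [← hr.2.1, ← hr'.2.1]
    simp only [hroot, comp_eq h]
  have e5 : ∀ r, ∃ v, NR r → v ∈ comp G Z (pw (comp (sq G) S r)) ∧
      (∃ y ∈ comp (sq G) S r, G.Adj y v) ∧ Plc G S Z A v ∧
      (G.Adj r (π v) → Plc G S Z A (π v)) := by
    intro r
    by_cases hr : NR r
    · have h1 := (hrt _ r hr.1 rfl).2.2 (hNR r hr)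
      have h2 : rt (comp (sq G) S r) = r := hr.2.1
      rw [h2] at h1
      obtain ⟨v, h3⟩ := choose_replace hF hinv hπZ hr.1 h1 (hpw _ r hr.1 rfl (hNR r hr)).2.1
      exact ⟨v, fun _ => h3⟩
    · exact ⟨a0, fun h => absurd h hr⟩
  choose vK hvK using e5
  let Pl : Set V := {v | (∃ w ∈ Z, (∃ z, NW G S (comp G Z w) z) ∧ v = v0 (comp G Z w)) ∨
    ∃ r, NR r ∧ (v = vK r ∨ (v = π (vK r) ∧ G.Adj r v))}
  have hP1 : ∀ v ∈ Pl, Plc G S Z A v := by
    rintro v (⟨w, hw, hN, rfl⟩ | ⟨r, hr, rfl | ⟨rfl, h⟩⟩)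
    · exact ((hv0 _ w hw rfl).2.1 hN).2
    · exact (hvK r hr).2.2.1
    · exact (hvK r hr).2.2.2 h
  have hT1 : ∀ w ∈ Z, (∃ z, NW G S (comp G Z w) z) → ∀ y ∈ S, G.Adj y (v0 (comp G Z w)) →
      zs (comp G Z w) ∈ comp (sq G) S y := by
    intro w hw hN y hy hadj
    obtain ⟨y', hy', hadj'⟩ := ((hv0 _ w hw rfl).2.1 hN).1
    obtain ⟨z, hz⟩ := hN
    rw [comp_eq (mem_comp_of_cn hy' hy ⟨_, hadj', hadj.symm⟩)]
    exact self_mem_comp (hzs _ z hz).1.1
  have hT2 : ∀ r, NR r → ∀ v, (v = vK r ∨ (v = π (vK r) ∧ G.Adj r v)) →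
      v ∈ comp G Z (pw (comp (sq G) S r)) ∧ ∀ y ∈ S, G.Adj y v → y ∈ comp (sq G) S r := by
    rintro r hr v (rfl | ⟨rfl, h⟩)
    · obtain ⟨y', hy', hadj'⟩ := (hvK r hr).2.1
      exact ⟨(hvK r hr).1, fun y hy hadj => mem_comp_of_cn hy' hy ⟨_, hadj', hadj.symm⟩⟩
    · refine ⟨?_, fun y hy hadj => mem_comp_of_cn (self_mem_comp hr.1) hy ⟨_, h, hadj.symm⟩⟩
      have := hπZ _ (comp_subset Z _ (hvK r hr).1)
      rwa [comp_eq (hvK r hr).1] at this
  have hT3 : ∀ w ∈ Z, (∃ z, NW G S (comp G Z w) z) → ∀ r, NR r → ∀ y ∈ comp (sq G) S r,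
      G.Adj y (v0 (comp G Z w)) → comp G Z w ≠ comp G Z (pw (comp (sq G) S r)) := by
    intro w hw hN r hr y hy hadj heq
    have h1 := hT1 w hw hN y (comp_subset S r hy) hadj
    rw [comp_eq hy, heq] at h1
    exact (hpw _ r hr.1 rfl (hNR r hr)).2.2 h1
  have hP2 : ∀ v ∈ Pl, ∀ v' ∈ Pl, ∀ y ∈ S, G.Adj y v → G.Adj y v' → ¬ G.Adj v v' := by
    intro v hv v' hv' y hy h1 h2 hadj
    have hsame : comp G Z v' = comp G Z v :=
      comp_eq (mem_comp_of_adj (self_mem_comp (hP1 v hv).1) (hP1 v' hv').1 hadj)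
    rcases hv with ⟨w, hw, hN, rfl⟩ | ⟨r, hr, h⟩ <;>
      rcases hv' with ⟨w', hw', hN', rfl⟩ | ⟨r', hr', h'⟩
    · rw [comp_eq (hv0 _ w hw rfl).1, comp_eq (hv0 _ w' hw' rfl).1] at hsame
      rw [hsame] at hadj
      exact G.irrefl hadj
    · obtain ⟨h3, h4⟩ := hT2 r' hr' v' h'
      rw [comp_eq (hv0 _ w hw rfl).1, comp_eq h3] at hsame
      exact hT3 w hw hN r' hr' y (h4 y hy h2) h1 hsame.symm
    · obtain ⟨h3, h4⟩ := hT2 r hr v h
      rw [comp_eq (hv0 _ w' hw' rfl).1, comp_eq h3] at hsame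
      exact hT3 w' hw' hN' r hr y (h4 y hy h1) h2 hsame
    · have h3 := (hT2 r hr v h).2 y hy h1
      have h4 := (hT2 r' hr' v' h').2 y hy h2
      have : r = r' := hNReq r r' hr hr' (by
        rw [← comp_eq h3, comp_eq h4]
        exact self_mem_comp hr'.1)
      subst this
      rcases h with rfl | ⟨rfl, -⟩ <;> rcases h' with h' | ⟨h', -⟩
      · exact G.irrefl (h' ▸ hadj)
      · exact hnadj _ (h' ▸ hadj)
      · exact hnadj _ (h' ▸ hadj.symm)
      · exact G.irrefl (h' ▸ hadj)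
  let Rel : V → V → Prop := fun x q => (x = q ∧ q ∉ Pl) ∨ (NR x ∧ q = vK x)
  have hRu : ∀ x x' q, Rel x q → Rel x' q → x = x' := by
    rintro x x' q (⟨h1, h2⟩ | ⟨h1, h2⟩) (⟨h3, h4⟩ | ⟨h3, h4⟩)
    · exact h1.trans h3.symm
    · exact absurd (Or.inr ⟨x', h3, Or.inl h4⟩) h2
    · exact absurd (Or.inr ⟨x, h1, Or.inl h2⟩) h4
    · obtain ⟨y, hy, hadj⟩ := (hvK x' h3).2.1
      have h5 := (hT2 x h1 q (Or.inl h2)).2 y (comp_subset S _ hy) (h4 ▸ hadj)
      refine hNReq x x' h1 h3 ?_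
      rw [← comp_eq h5, comp_eq hy]
      exact self_mem_comp h3.1
  have hRi : ∀ x x' q, Rel x q → Rel x' (π q) → ¬ G.Adj x x' := by
    rintro x x' q (⟨h1, h2⟩ | ⟨h1, h2⟩) (⟨h3, h4⟩ | ⟨h3, h4⟩) hadj
    · rw [h1, h3] at hadj
      exact hnadj q hadj
    · exact h2 (Or.inr ⟨x', h3, Or.inr ⟨by rw [← h4, hinv], h1 ▸ hadj.symm⟩⟩)
    · exact h4 (Or.inr ⟨x, h1, Or.inr ⟨by rw [h2], h3 ▸ hadj⟩⟩)
    · exact hadj.ne (hNReq x x' h1 h3
        (mem_comp_of_adj (self_mem_comp h1.1) h3.1 ⟨hadj.ne, Or.inl hadj⟩))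
  have hQ : ∀ o, Good G {x | Rel x o ∨ Rel x (π o)} := by
    intro o
    refine good_of_two ?_ ?_
    · rintro x (h | h) x' (h' | h') hne
      · exact absurd (hRu _ _ _ h h') hne
      · exact hRi _ _ _ h h'
      · exact hRi _ _ _ h (by rwa [hinv])
      · exact absurd (hRu _ _ _ h h') hne
    · rintro u (hu | hu) v (hv | hv) w (hw | hw) h1 h2 h3
      · exact h1 (hRu _ _ _ hu hv)
      · exact h1 (hRu _ _ _ hu hv)
      · exact h2 (hRu _ _ _ hw hu)
      · exact h3 (hRu _ _ _ hw hv)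
      · exact h3 (hRu _ _ _ hw hv)
      · exact h2 (hRu _ _ _ hw hu)
      · exact h1 (hRu _ _ _ hu hv)
      · exact h1 (hRu _ _ _ hu hv)
  let C : (S ⊕ O) ⊕ Unit → Set V := fun i => match i with
    | .inl (.inl y) => starCl G S A Pl y
    | .inl (.inr o) => {x | Rel x o ∨ Rel x (π o)}
    | .inr _ => {x | base x = x}
  have hcovO : ∀ x q, q ∈ Z → q ≠ v0 (comp G Z q) → Rel x q → ∃ i, x ∈ C i := by
    intro x q hq hne hR
    rcases hO q hq hne with h | h
    · exact ⟨.inl (.inr ⟨q, h⟩), Or.inl hR⟩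
    · exact ⟨.inl (.inr ⟨π q, h⟩), Or.inr (by rwa [hinv])⟩
  have hle := chiGp_le_of_cover (G := G) C ?_ ?_
  · simp only [Fintype.card_sum, Fintype.card_coe, Fintype.card_unit] at hle
    have h1 : S.card + Z.card = Fintype.card V := card_compl_add_card Z
    omega
  · rintro ((y | o) | u)
    · exact star_good hF hZ hP1 hP2 y
    · exact hQ o
    · exact good_of_unreach fun u hu v hv h => hu.symm.trans ((hb2 u v h).trans hv)
  · intro x
    by_cases hx : x ∈ S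
    · by_cases hr : root x = x
      · by_cases hb : base x = x
        · exact ⟨.inr (), hb⟩
        · have hN : NR x := ⟨hx, hr, hb⟩
          obtain ⟨h1, ⟨y, hy, hadj⟩, h2, -⟩ := hvK x hN
          refine hcovO x (vK x) h2.1 (fun heq => ?_) (Or.inr ⟨hN, rfl⟩)
          exact hT3 (vK x) h2.1 ⟨y, comp_subset S x hy, vK x, self_mem_comp h2.1, hadj⟩ x hN y hy
            (heq ▸ hadj) (comp_eq h1)
      · obtain ⟨y, hy, h⟩ := cover_S hF Pl hx hr
        exact ⟨.inl (.inl ⟨y, hy⟩), h⟩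
    · have hxZ := hZ x hx
      by_cases hP : x ∈ Pl
      · obtain ⟨y, hy, h⟩ := cover_P hF hP (hP1 x hP).2.1
        exact ⟨.inl (.inl ⟨y, hy⟩), h⟩
      · by_cases h0 : x = v0 (comp G Z x)
        · refine ⟨.inr (), ?_⟩
          have := (hv0 _ x hxZ rfl).2.2 (fun hN => hP (Or.inl ⟨x, hxZ, hN, h0⟩))
          rwa [← h0] at this
        · exact hcovO x x hxZ h0 (Or.inl ⟨rfl, hP⟩)

lemma chiGp_compl_le [Fintype V] [DecidableEq V] (G : SimpleGraph V)
    (h : ∀ X, Gᶜ.IsIndepSet X → GenPos Gᶜ X) : chiGp Gᶜ ≤ theta G Finset.univ := by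
  obtain ⟨c, hc, hk⟩ := exists_opt (G := G) Finset.univ
  have := chiGp_le_of_cover (G := Gᶜ) (ι := (Finset.univ.image c))
    (fun i => {x | c x = i}) (fun i => ?_) (fun v => ⟨⟨c v, mem_image_of_mem _ (mem_univ v)⟩, rfl⟩)
  · rwa [Fintype.card_coe, hk] at this
  · have hi : Gᶜ.IsIndepSet {x | c x = i} := fun x hx y hy hxy hadj =>
      ((SimpleGraph.compl_adj G x y).mp hadj).2
        (hc x (mem_univ _) y (mem_univ _) hxy (hx.trans hy.symm))
    exact ⟨hi, h _ hi⟩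

theorem nordhaus_gaddum_gp [Fintype V] (G : SimpleGraph V) :
    chiGp G + chiGp Gᶜ ≤ Fintype.card V + 1 := by
  classical
  rcases dichotomy G with h | h
  · have h1 := chiGp_compl_le Gᶜ (by rwa [compl_compl])
    rw [compl_compl] at h1
    have h2 := main_bound Gᶜ
    omega
  · have h1 := chiGp_compl_le G h
    have h2 := main_bound G
    omega

end Pool.Agent.Lib.MP_691331_co
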