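import Mathlib

set_option autoImplicit false

namespace Pool.Agent.Lib.MP_691331_co

/-- X is in monophonic position: every induced path between two distinct vertices of X meets X
only in its two ends. -/
def MonoPos {V : Type} (G : SimpleGraph V) (X : Set V) : Prop :=
  ∀ u ∈ X, ∀ v ∈ X, u ≠ v → ∀ p : G.Walk u v, p.IsPath → p.toSubgraph.IsInduced →
    {w | w ∈ p.support} ∩ X = {u, v}

/-- The least number of colours in a colouring all of whose classes are independent sets in
monophonic position. -/
noncomputable def chiMp {V : Type} (G : SimpleGraph V) : ℕ :=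
  sInf {k : ℕ | ∃ c : V → Fin k, ∀ i : Fin k,
    G.IsIndepSet (c ⁻¹' {i}) ∧ MonoPos G (c ⁻¹' {i})}

end Pool.Agent.Lib.MP_691331_co
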