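import Pool.Agent.Lib.MP_691331_co.MpUpper

/-! Incidence graphs of codes with large distance and strength four. -/

set_option autoImplicit false
set_option linter.unusedSectionVars false

namespace Pool.Agent.Lib.MP_691331_co

open SimpleGraph Finset

section code

variable {α β : Type} [Fintype α] [Fintype β] [DecidableEq α] [DecidableEq β]

/-- Words that agree with `w` on `S`. -/
def fixw (S : Finset α) (w : α → β) : Finset (α → β) :=
  Fintype.piFinset fun x => if x ∈ S then {w x} else univ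

lemma mem_fixw {S : Finset α} {w p : α → β} : p ∈ fixw S w ↔ ∀ x ∈ S, p x = w x := by
  simp only [fixw, Fintype.mem_piFinset]
  refine forall_congr' fun x => ?_
  split_ifs with h <;> simp [h]

lemma card_fixw (S : Finset α) (w : α → β) :
    (fixw S w).card = Fintype.card β ^ (Fintype.card α - S.card) := by
  simp only [fixw, Fintype.card_piFinset, apply_ite card, card_singleton, card_univ]
  rw [prod_ite, prod_const_one, one_mul, prod_const, ← card_compl]
  congr 2
  ext x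
  simp

lemma code_step {a : ℕ} (hα : Fintype.card α = 3 * a + 52) (hβ : Fintype.card β = 16)
    (B : Finset (α → β)) (hB : B.card < 2 ^ a) (S : Finset α) (hS : S.card ≤ 4) (w : α → β) :
    ∃ p : α → β, (∀ x ∈ S, p x = w x) ∧ ∀ q ∈ B, (univ.filter fun x => p x = q x).card ≤ a + 16 := by
  by_contra h
  push Not at h
  have h1 : fixw S w ⊆ B.biUnion fun q => (powersetCard (a + 17) univ).biUnion fun T => fixw T q := by
    intro p hp
    obtain ⟨q, hq, h2⟩ := h p (mem_fixw.mp hp)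
    obtain ⟨T, h3, h4⟩ := exists_subset_card_eq (n := a + 17) h2
    exact mem_biUnion.mpr ⟨q, hq, mem_biUnion.mpr ⟨T, mem_powersetCard.mpr ⟨subset_univ _, h4⟩,
      mem_fixw.mpr fun x hx => (mem_filter.mp (h3 hx)).2⟩⟩
  have h2 := (card_le_card h1).trans (card_biUnion_le_card_mul _ _
    (2 ^ (3 * a + 52) * 16 ^ (2 * a + 35)) fun q _ => (card_biUnion_le_card_mul _ _
      (16 ^ (2 * a + 35)) fun T hT => by
        rw [card_fixw, (mem_powersetCard.mp hT).2, hα, hβ]
        exact le_of_eq (by congr 1; omega)).trans (Nat.mul_le_mul_right _ (by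
      rw [card_powersetCard, card_univ, hα]
      exact Nat.choose_le_two_pow _ _)))
  rw [card_fixw, hα, hβ] at h2
  have h3 : 16 ^ (3 * a + 48) ≤ 16 ^ (3 * a + 52 - S.card) :=
    Nat.pow_le_pow_right (by norm_num) (by omega)
  have h4 : 16 ^ (3 * a + 48) = 2 ^ a * (2 ^ (3 * a + 52) * 16 ^ (2 * a + 35)) := by
    rw [show 16 = 2 ^ 4 by norm_num, ← pow_mul, ← pow_mul, ← pow_add, ← pow_add]
    congr 1
    ring
  have h5 := Nat.mul_lt_mul_of_pos_right hB
    (by positivity : 0 < 2 ^ (3 * a + 52) * 16 ^ (2 * a + 35))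
  omega

lemma code_build {a : ℕ} (hα : Fintype.card α = 3 * a + 52) (hβ : Fintype.card β = 16) {ρ : Type}
    (S : ρ → Finset α) (hS : ∀ r, (S r).card ≤ 4) (w : ρ → α → β) (R : Finset ρ)
    (hR : R.card ≤ 2 ^ a) : ∃ B : Finset (α → β), B.card = R.card ∧
      (∀ p ∈ B, ∀ q ∈ B, p ≠ q → (univ.filter fun x => p x = q x).card ≤ a + 16) ∧
      ∀ r ∈ R, ∃ p ∈ B, ∀ x ∈ S r, p x = w r x := by
  classical
  induction R using Finset.induction_on with
  | empty => exact ⟨∅, by simp⟩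
  | insert r R hr ih =>
    rw [card_insert_of_notMem hr] at hR ⊢
    obtain ⟨B, h1, h2, h3⟩ := ih (by omega)
    obtain ⟨p, h4, h5⟩ := code_step hα hβ B (by omega) (S r) (hS r) (w r)
    have h6 : p ∉ B := fun h => by
      have := h5 p h
      simp [hα] at this
      omega
    refine ⟨insert p B, by rw [card_insert_of_notMem h6, h1], fun u hu v hv huv => ?_,
      fun r' hr' => ?_⟩
    · rcases mem_insert.mp hu with h7 | h7 <;> rcases mem_insert.mp hv with h8 | h8
      · exact absurd (h7.trans h8.symm) huv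
      · exact h7 ▸ h5 v h8
      · simpa only [h8, eq_comm] using h5 u h7
      · exact h2 u h7 v h8 huv
    · rcases mem_insert.mp hr' with rfl | h7
      · exact ⟨p, mem_insert_self _ _, h4⟩
      · obtain ⟨q, hq, h8⟩ := h3 r' h7
        exact ⟨q, mem_insert_of_mem hq, h8⟩

/-- Any four values can be prescribed. -/
def Str (B : Finset (α → β)) : Prop :=
  ∀ a b c d : α × β, ∃ p ∈ B, p a.1 = a.2 ∧ (b.1 ≠ a.1 → p b.1 = b.2) ∧
    (c.1 ≠ a.1 → c.1 ≠ b.1 → p c.1 = c.2) ∧ (d.1 ≠ a.1 → d.1 ≠ b.1 → d.1 ≠ c.1 → p d.1 = d.2)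

lemma exists_code {a N : ℕ} (hα : Fintype.card α = 3 * a + 52) (hβ : Fintype.card β = 16)
    (h1 : ((3 * a + 52) * 16) ^ 4 ≤ N) (h2 : N ≤ 2 ^ a) : ∃ B : Finset (α → β), B.card = N ∧
      (∀ p ∈ B, ∀ q ∈ B, p ≠ q → (univ.filter fun x => p x = q x).card ≤ a + 16) ∧ Str B := by
  obtain ⟨m, rfl⟩ := Nat.exists_eq_add_of_le h1
  have h3 : (univ : Finset (((α × β) × (α × β) × (α × β) × (α × β)) ⊕ Fin m)).card
      = ((3 * a + 52) * 16) ^ 4 + m := by
    simp only [card_univ, Fintype.card_sum, Fintype.card_prod, Fintype.card_fin, hα, hβ]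
    ring
  obtain ⟨B, h4, h5, h6⟩ := code_build hα hβ
    (ρ := ((α × β) × (α × β) × (α × β) × (α × β)) ⊕ Fin m)
    (Sum.elim (fun r => {r.1.1, r.2.1.1, r.2.2.1.1, r.2.2.2.1}) fun _ => ∅)
    (by rintro (r | r) <;> simp [card_le_four])
    (fun r x => (Sum.elim (fun r => some (if x = r.1.1 then r.1.2 else if x = r.2.1.1 then r.2.1.2
      else if x = r.2.2.1.1 then r.2.2.1.2 else r.2.2.2.2)) (fun _ => none) r).getD
      ((Fintype.equivFinOfCardEq hβ).symm 0)) univ (h3 ▸ h2)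
  refine ⟨B, h4.trans h3, h5, fun a b c d => ?_⟩
  obtain ⟨p, hp, h7⟩ := h6 (Sum.inl (a, b, c, d)) (mem_univ _)
  simp only [Sum.elim_inl, mem_insert, mem_singleton, forall_eq_or_imp, forall_eq,
    Option.getD_some] at h7
  refine ⟨p, hp, by simpa using h7.1, fun h => by simpa [h] using h7.2.1,
    fun h h' => by simpa [h, h'] using h7.2.2.1, fun h h' h'' => by simpa [h, h', h''] using h7.2.2.2⟩

end code

section graph

variable {α β : Type} {B : Finset (α → β)}

/-- The incidence graph of a set of words: a word is joined to its letters. -/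
def inc (B : Finset (α → β)) : SimpleGraph ((α × β) ⊕ B) where
  Adj x y := match x, y with
    | Sum.inl a, Sum.inr p => p.1 a.1 = a.2
    | Sum.inr p, Sum.inl a => p.1 a.1 = a.2
    | _, _ => False
  symm := ⟨by rintro (a | a) (b | b) h <;> exact h⟩
  loopless := ⟨by rintro (a | a) h <;> exact h⟩

@[simp] lemma inc_lr (a : α × β) (p : B) : (inc B).Adj (.inl a) (.inr p) ↔ p.1 a.1 = a.2 := Iff.rfl
@[simp] lemma inc_rl (a : α × β) (p : B) : (inc B).Adj (.inr p) (.inl a) ↔ p.1 a.1 = a.2 := Iff.rfl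
@[simp] lemma inc_ll (a b : α × β) : ¬ (inc B).Adj (.inl a) (.inl b) := fun h => h
@[simp] lemma inc_rr (a b : B) : ¬ (inc B).Adj (.inr a) (.inr b) := fun h => h

lemma b1 {p : B} {x : α} {y : β} (h : p.1 x = y) : (inc B).Adj (.inr p) (.inl (x, y)) := h
lemma b2 {p : B} {x : α} {y : β} (h : p.1 x = y) : (inc B).Adj (.inl (x, y)) (.inr p) := h

lemma no_three [Fintype α] [DecidableEq α] [DecidableEq β] {A : ℕ}
    (hα : Fintype.card α = 3 * A + 4)
    (hB : ∀ p ∈ B, ∀ q ∈ B, p ≠ q → (univ.filter fun x => p x = q x).card ≤ A) (hS : Str B)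
    {X : Set ((α × β) ⊕ B)} (h : MonoPos (inc B) X) {u v w : B} (hu : .inr u ∈ X)
    (hv : .inr v ∈ X) (hw : .inr w ∈ X) (huv : u ≠ v) (huw : u ≠ w) (hvw : v ≠ w) : False := by
  have h1 := hB _ u.2 _ v.2 fun h => huv (Subtype.ext h)
  have h2 := hB _ u.2 _ w.2 fun h => huw (Subtype.ext h)
  have h3 := hB _ v.2 _ w.2 fun h => hvw (Subtype.ext h)
  have h4 : (univ : Finset α) ⊆ (univ.filter fun x => u.1 x ≠ v.1 x ∧ u.1 x ≠ w.1 x ∧ v.1 x ≠ w.1 x)
      ∪ ((univ.filter fun x => u.1 x = v.1 x) ∪ ((univ.filter fun x => u.1 x = w.1 x) ∪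
        (univ.filter fun x => v.1 x = w.1 x))) := by
    intro x _
    simp only [mem_union, mem_filter, mem_univ, true_and]
    tauto
  have h5 := (card_le_card h4).trans ((card_union_le _ _).trans (Nat.add_le_add_left
    ((card_union_le _ _).trans (add_le_add h1 ((card_union_le _ _).trans (add_le_add h2 h3)))) _))
  rw [card_univ, hα] at h5
  obtain ⟨x₁, x₂, x₃, x₄, m1, m2, m3, m4, n12, n13, n14, n23, n24, n34⟩ :=
    three_lt_card_iff.mp (by omega : 3 <
      (univ.filter fun x => u.1 x ≠ v.1 x ∧ u.1 x ≠ w.1 x ∧ v.1 x ≠ w.1 x).card)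
  simp only [mem_filter, mem_univ, true_and] at m1 m2 m3 m4
  obtain ⟨p, hp, p1, p2, p3, p4⟩ := hS (x₁, u.1 x₁) (x₂, w.1 x₂) (x₃, u.1 x₃) (x₄, u.1 x₄)
  obtain ⟨q, hq, q1, q2, q3, q4⟩ := hS (x₁, w.1 x₁) (x₂, u.1 x₂) (x₃, w.1 x₃) (x₄, v.1 x₄)
  replace p2 := p2 n12.symm
  replace p3 := p3 n13.symm n23.symm
  replace p4 := p4 n14.symm n24.symm n34.symm
  replace q2 := q2 n12.symm
  replace q3 := q3 n13.symm n23.symm
  replace q4 := q4 n14.symm n24.symm n34.symm
  simp only at p1 p2 p3 p4 q1 q2 q3 q4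
  obtain ⟨p, rfl⟩ : ∃ P : B, P.1 = p := ⟨⟨p, hp⟩, rfl⟩
  obtain ⟨q, rfl⟩ : ∃ Q : B, Q.1 = q := ⟨⟨q, hq⟩, rfl⟩
  have key := h _ hu _ hv (by simpa) (.cons (b1 (x := x₁) rfl) (.cons (b2 p1)
    (.cons (b1 p2) (.cons (b2 (p := w) rfl) (.cons (b1 (x := x₃) rfl)
      (.cons (b2 q3) (.cons (b1 q4) (.cons (b2 rfl) .nil)))))))) ?_ ?_
  · have h6 : (.inr w : (α × β) ⊕ B) ∈ ({.inr u, .inr v} : Set _) := key ▸ ⟨by simp, hw⟩
    rcases h6 with h6 | h6
    · exact huw (Sum.inr.inj h6).symm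
    · exact hvw (Sum.inr.inj h6).symm
  · simp [Walk.isPath_def]
    grind
  · rw [Walk.isInduced_toSubgraph, Walk.isChordless_iff_forall_mem_edges]
    simp [or_imp, forall_and]
    grind

lemma inc_conn [Nontrivial α] [Nonempty β] (hS : Str B) : (inc B).Connected := by
  obtain ⟨x₀, x₁, hx⟩ := exists_pair_ne α
  obtain ⟨y₀⟩ := ‹Nonempty β›
  have h1 : ∀ a b : α × β, b.1 ≠ a.1 → (inc B).Reachable (.inl a) (.inl b) := by
    intro a b h
    obtain ⟨p, hp, h1, h2, -⟩ := hS a b a a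
    exact (b2 (p := ⟨p, hp⟩) h1).reachable.trans (b1 (p := ⟨p, hp⟩) (h2 h)).reachable
  have h2 : ∀ a : α × β, (inc B).Reachable (.inl (x₀, y₀)) (.inl a) := by
    intro a
    by_cases h : a.1 = x₀
    · exact (h1 _ (x₁, y₀) hx.symm).trans (h1 _ _ (by simpa [h] using hx))
    · exact h1 _ _ h
  refine (connected_iff_exists_forall_reachable _).mpr ⟨.inl (x₀, y₀), ?_⟩
  rintro (a | p)
  · exact h2 a
  · exact (h2 (x₀, p.1 x₀)).trans (b2 rfl).reachable

lemma inc_compl_conn [Nonempty α] [Nontrivial β] : (inc B)ᶜ.Connected := by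
  obtain ⟨x⟩ := ‹Nonempty α›
  obtain ⟨y₀⟩ : Nonempty β := inferInstance
  have h2 : ∀ a : α × β, (inc B)ᶜ.Reachable (.inl (x, y₀)) (.inl a) := by
    intro a
    by_cases h : (x, y₀) = a
    · rw [h]
    · exact Adj.reachable (by simpa using h)
  refine (connected_iff_exists_forall_reachable _).mpr ⟨.inl (x, y₀), ?_⟩
  rintro (a | p)
  · exact h2 a
  · obtain ⟨y, hy⟩ := exists_ne (p.1 x)
    exact (h2 (x, y)).trans (Adj.reachable (by simpa using hy.symm))

lemma inc_lower [Fintype α] [Fintype β] [DecidableEq α] [DecidableEq β] {A : ℕ}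
    (hα : Fintype.card α = 3 * A + 4)
    (hB : ∀ p ∈ B, ∀ q ∈ B, p ≠ q → (univ.filter fun x => p x = q x).card ≤ A) (hS : Str B) :
    3 * B.card ≤ 2 * (chiMp (inc B) + chiMp (inc B)ᶜ) := by
  obtain ⟨c, hc⟩ := exists_col (inc B)
  obtain ⟨c', hc'⟩ := exists_col (inc B)ᶜ
  have h1 : B.card ≤ 2 * chiMp (inc B) := by
    have h2 := card_le_mul_card_image_of_maps_to (s := (univ : Finset B)) (t := univ)
      (f := fun p => c (.inr p)) (fun _ _ => mem_univ _) 2 fun i _ => ?_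
    · simpa using h2
    · by_contra h
      obtain ⟨u, hu, v, hv, w, hw, h3, h4, h5⟩ := two_lt_card.mp (not_le.mp h)
      exact no_three hα hB hS (hc i).2 (mem_filter.mp hu).2 (mem_filter.mp hv).2
        (mem_filter.mp hw).2 h3 h4 h5
  have h2 : B.card ≤ chiMp (inc B)ᶜ := by
    have h3 := Fintype.card_le_of_injective (fun p : B => c' (.inr p)) fun u v h => ?_
    · simpa using h3
    · by_contra hne
      exact (hc' (c' (.inr v))).1 (x := .inr u) h (y := .inr v) rfl (by simpa using hne)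
        (by simpa using hne)
  omega

end graph

lemma growth (l : ℕ) (hl : 50 ≤ l) : 2 * ((3 * (l + 1) + 52) * 16) ^ 4 ≤ 2 ^ l := by
  induction l, hl using Nat.le_induction with
  | base => norm_num
  | succ l hl ih =>
    obtain ⟨x, hx⟩ : ∃ x, (3 * (l + 1 + 1) + 52) * 16 = x := ⟨_, rfl⟩
    obtain ⟨y, hy⟩ : ∃ y, (3 * (l + 1) + 52) * 16 = y := ⟨_, rfl⟩
    rw [hy] at ih
    have h1 : 10 * x ≤ 11 * y := by omega
    have h2 := Nat.pow_le_pow_left h1 4
    rw [mul_pow, mul_pow] at h2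
    rw [hx, pow_succ 2]
    norm_num at h2
    clear hx hy h1
    omega

end Pool.Agent.Lib.MP_691331_co
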