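import Pool.Agent.Lib.MP_691331_co.MpDefs

/-! Covers by independent monophonic position sets and the upper bound for the sum. -/

set_option autoImplicit false

namespace Pool.Agent.Lib.MP_691331_co

open SimpleGraph Finset

variable {V : Type} {G : SimpleGraph V}

lemma MonoPos.mono {X Y : Set V} (h : MonoPos G X) (hY : Y ⊆ X) : MonoPos G Y := by
  intro u hu v hv huv p hp hi
  refine Set.Subset.antisymm ?_ ?_
  · rw [← h u (hY hu) v (hY hv) huv p hp hi]
    exact Set.inter_subset_inter_right _ hY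
  · rintro w (rfl | rfl)
    · exact ⟨p.start_mem_support, hu⟩
    · exact ⟨p.end_mem_support, hv⟩

lemma monoPos_of {X : Set V} (h : ∀ u ∈ X, ∀ v ∈ X, ∀ w ∈ X, u ≠ v → w ≠ u → w ≠ v →
    ∀ p : G.Walk u v, p.IsPath → p.toSubgraph.IsInduced → w ∉ p.support) : MonoPos G X := by
  intro u hu v hv huv p hp hi
  refine Set.Subset.antisymm ?_ ?_
  · rintro w ⟨h1, h2⟩
    by_contra h3
    simp only [Set.mem_insert_iff, Set.mem_singleton_iff, not_or] at h3
    exact h u hu v hv w h2 huv h3.1 h3.2 p hp hi h1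
  · rintro w (rfl | rfl)
    · exact ⟨p.start_mem_support, hu⟩
    · exact ⟨p.end_mem_support, hv⟩

/-- An independent set in monophonic position. -/
def Good (G : SimpleGraph V) (X : Set V) : Prop := G.IsIndepSet X ∧ MonoPos G X

lemma good_pair {x y : V} (h : ¬ G.Adj x y) : Good G {x, y} := by
  refine ⟨?_, monoPos_of ?_⟩
  · rintro u (rfl | rfl) v (rfl | rfl) huv
    · exact absurd rfl huv
    · exact h
    · exact fun h' => h h'.symm
    · exact absurd rfl huv
  · rintro u (rfl | rfl) v (rfl | rfl) w (rfl | rfl) h1 h2 h3 <;> simp_all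

lemma good_one (x : V) : Good G {x} := by
  simpa using good_pair (G := G) (x := x) (y := x) G.irrefl

/-- `W` is covered by at most `k` independent sets in monophonic position. -/
def Cov (G : SimpleGraph V) (W : Finset V) (k : ℕ) : Prop :=
  ∃ P : Finset (Set V), P.card ≤ k ∧ (∀ X ∈ P, Good G X) ∧ ∀ v ∈ W, ∃ X ∈ P, v ∈ X

lemma Cov.add {W W' : Finset V} {k : ℕ} (h : Cov G W k) {X : Set V} (hX : Good G X)
    (hW : ∀ v ∈ W', v ∈ X ∨ v ∈ W) : Cov G W' (k + 1) := by
  classical
  obtain ⟨P, h1, h2, h3⟩ := h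
  refine ⟨insert X P, (card_insert_le _ _).trans (by omega), by simpa [hX] using h2,
    fun v hv => ?_⟩
  rcases hW v hv with h | h
  · exact ⟨X, mem_insert_self _ _, h⟩
  · obtain ⟨Y, hY, h⟩ := h3 v h
    exact ⟨Y, mem_insert_of_mem hY, h⟩

lemma cov_empty : Cov G ∅ 0 := ⟨∅, by simp⟩

lemma cov_single (W : Finset V) : Cov G W W.card := by
  classical
  refine ⟨W.image fun v => {v}, card_image_le, fun X hX => ?_,
    fun v hv => ⟨_, mem_image_of_mem _ hv, rfl⟩⟩
  obtain ⟨v, -, rfl⟩ := mem_image.mp hX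
  exact good_one v

lemma Cov.col [Fintype V] {k : ℕ} (h : Cov G univ k) : ∃ j ≤ k, ∃ c : V → Fin j, ∀ i : Fin j,
    G.IsIndepSet (c ⁻¹' {i}) ∧ MonoPos G (c ⁻¹' {i}) := by
  obtain ⟨P, h1, h2, h3⟩ := h
  choose X hX hv using fun v => h3 v (mem_univ v)
  refine ⟨P.card, h1, fun v => P.equivFin ⟨X v, hX v⟩, fun i => ?_⟩
  have h4 : (fun v => P.equivFin ⟨X v, hX v⟩) ⁻¹' {i} ⊆ (P.equivFin.symm i).1 := by
    rintro v rfl
    simpa using hv v
  have h5 := h2 _ (P.equivFin.symm i).2
  exact ⟨h5.1.mono h4, h5.2.mono h4⟩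

lemma Cov.chi_le [Fintype V] {k : ℕ} (h : Cov G univ k) : chiMp G ≤ k := by
  obtain ⟨j, hj, hc⟩ := h.col
  exact (Nat.sInf_le hc).trans hj

lemma exists_col [Fintype V] (G : SimpleGraph V) : ∃ c : V → Fin (chiMp G), ∀ i,
    G.IsIndepSet (c ⁻¹' {i}) ∧ MonoPos G (c ⁻¹' {i}) := by
  obtain ⟨j, -, hc⟩ := (cov_single (G := G) univ).col
  exact Nat.sInf_mem (s := {k : ℕ | ∃ c : V → Fin k, ∀ i : Fin k,
    G.IsIndepSet (c ⁻¹' {i}) ∧ MonoPos G (c ⁻¹' {i})}) ⟨j, hc⟩

lemma cov_two [DecidableEq V] {W : Finset V} {x y : V} {k : ℕ} (h : Cov G ((W.erase x).erase y) k) :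
    Cov G W (k + 2) :=
  (h.add (W' := W.erase x) (good_one y) fun v hv => by
    by_cases h : v = y <;> simp_all).add (good_one x) fun v hv => by
    by_cases h : v = x <;> simp_all

lemma cov_pair [DecidableEq V] {W : Finset V} {x y : V} {k : ℕ} (hxy : ¬ G.Adj x y)
    (h : Cov G ((W.erase x).erase y) k) : Cov G W (k + 1) :=
  h.add (good_pair hxy) fun v hv => by
    by_cases h : v = x <;> by_cases h' : v = y <;> simp_all

lemma cov_base (G : SimpleGraph V) (W : Finset V) :
    ∃ k₁ k₂, Cov G W k₁ ∧ Cov Gᶜ W k₂ ∧ 2 * (k₁ + k₂) ≤ 3 * W.card + 1 := by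
  classical
  induction W using Finset.strongInduction with
  | H W ih =>
    by_cases h : W.card ≤ 1
    · exact ⟨_, _, cov_single W, cov_single W, by omega⟩
    obtain ⟨x, hx, y, hy, hxy⟩ := one_lt_card.mp (not_le.mp h)
    obtain ⟨k₁, k₂, h1, h2, h3⟩ := ih ((W.erase x).erase y)
      ((erase_subset _ _).trans_ssubset (erase_ssubset hx))
    rw [card_erase_of_mem (mem_erase.mpr ⟨hxy.symm, hy⟩), card_erase_of_mem hx] at h3
    by_cases h4 : G.Adj x y
    · exact ⟨_, _, cov_two h1, cov_pair (by simp [h4]) h2, by omega⟩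
    · exact ⟨_, _, cov_pair h4 h1, cov_two h2, by omega⟩

lemma cov_step (G : SimpleGraph V) [DecidableEq V] (t : ℕ) : ∀ W : Finset V,
    (∃ T : Finset V, T.card ≤ 3 * t ∧ (G.IsIndepSet (W \ T : Finset V) ∨
      Gᶜ.IsIndepSet (W \ T : Finset V))) ∨
    ∃ k₁ k₂, Cov G W k₁ ∧ Cov Gᶜ W k₂ ∧ 2 * (k₁ + k₂) + t ≤ 3 * W.card + 1 := by
  induction t with
  | zero => exact fun W => Or.inr (cov_base G W)
  | succ t ih =>
    intro W
    by_cases h : ∃ x ∈ W, ∃ y ∈ W, ∃ z ∈ W, G.Adj x y ∧ ¬ G.Adj x z ∧ x ≠ z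
    · obtain ⟨x, hx, y, hy, z, hz, hxy, hxz, hne⟩ := h
      have hyz : y ≠ z := fun h => hxz (h ▸ hxy)
      rcases ih (((W.erase x).erase y).erase z) with ⟨T, h1, h2⟩ | ⟨k₁, k₂, h1, h2, h3⟩
      · refine Or.inl ⟨insert x (insert y (insert z T)), ?_, ?_⟩
        · have := card_insert_le x (insert y (insert z T))
          have := card_insert_le y (insert z T)
          have := card_insert_le z T
          omega
        · have : W \ insert x (insert y (insert z T)) = ((W.erase x).erase y).erase z \ T := by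
            ext v
            simp only [mem_sdiff, mem_insert, mem_erase]
            tauto
          rwa [this]
      · rw [card_erase_of_mem (by simp [hz, hyz.symm, hne.symm]),
          card_erase_of_mem (by simp [hy, hxy.ne.symm]), card_erase_of_mem hx] at h3
        have h4 : 2 < W.card := two_lt_card.mpr ⟨x, hx, y, hy, z, hz, hxy.ne, hne, hyz⟩
        refine Or.inr ⟨k₁ + 1 + 1, k₂ + 1 + 1, ?_, ?_, by omega⟩
        · exact (h1.add (W' := (W.erase x).erase z) (good_one y) fun v hv => by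
            by_cases h : v = y <;> simp_all).add (good_pair hxz) fun v hv => by
            by_cases h : v = x <;> by_cases h' : v = z <;> simp_all
        · exact (h2.add (W' := (W.erase x).erase y) (good_one z) fun v hv => by
            by_cases h : v = z <;> simp_all).add (good_pair (x := x) (y := y) (by simp [hxy]))
            fun v hv => by by_cases h : v = x <;> by_cases h' : v = y <;> simp_all
    · refine Or.inl ⟨∅, by simp, ?_⟩
      rw [sdiff_empty]
      push Not at h
      by_contra hc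
      simp only [not_or, IsIndepSet, Set.Pairwise, mem_coe, not_forall, not_not, compl_adj] at hc
      obtain ⟨⟨a, ha, b, hb, -, hab⟩, c, hc, d, hd, hcd, -, hcd'⟩ := hc
      have h1 : ¬ G.Adj a c := fun h1 => hcd (h c hc a ha d hd h1.symm hcd')
      exact hcd' ((h a ha b hb c hc hab h1) ▸ by
        by_contra h2
        exact hcd ((h a ha b hb c hc hab h1) ▸ h a ha b hb d hd hab h2))

lemma cov_twins [Fintype V] [DecidableEq V] (T : Finset V)
    (h : G.IsIndepSet (univ \ T : Finset V)) : Cov G univ (T.card + 2 ^ T.card) := by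
  classical
  have h0 : ∀ u v, G.Adj u v → u ∉ T → v ∈ T := fun u v huv hu => by
    by_contra hv
    exact h (by simpa using hu) (by simpa using hv) huv.ne huv
  obtain ⟨P, h1, h2, h3⟩ := cov_single (G := G) T
  refine ⟨P ∪ T.powerset.image fun S => {v | v ∉ T ∧ T.filter (G.Adj v) = S}, ?_, ?_, ?_⟩
  · refine (card_union_le _ _).trans (add_le_add h1 (card_image_le.trans ?_))
    rw [card_powerset]
  · intro X hX
    rcases mem_union.mp hX with hX | hX
    · exact h2 X hX
    obtain ⟨S, -, rfl⟩ := mem_image.mp hX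
    refine ⟨fun u hu v hv _ huv => hv.1 (h0 u v huv hu.1), monoPos_of ?_⟩
    intro u hu v hv w hw huv hwu hwv p hp hi hwp
    have h4 : 0 < p.length := by
      by_contra h4
      exact huv (p.eq_of_length_eq_zero (by omega))
    have h5 : G.Adj u (p.getVert 1) := by simpa using p.adj_getVert_succ h4
    have h6 : p.getVert 1 ∈ S := hu.2 ▸ mem_filter.mpr ⟨h0 _ _ h5 hu.1, h5⟩
    have h7 : 1 < p.length := by
      by_contra h7
      exact hv.1 (p.getVert_of_length_le (not_lt.mp h7) ▸ h0 _ _ h5 hu.1)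
    have h8 := hp.neighborSet_toSubgraph_internal one_ne_zero h7
    have h9 : ∀ z, z ∈ p.support → z ≠ u → T.filter (G.Adj z) = S → z = p.getVert 2 := by
      intro z hz hzu hS
      have h10 : z ∈ p.toSubgraph.neighborSet (p.getVert 1) :=
        hi (p.mem_verts_toSubgraph.mpr (p.getVert_mem_support 1)) (p.mem_verts_toSubgraph.mpr hz)
          (mem_filter.mp (hS ▸ h6)).2.symm
      rw [h8] at h10
      simpa [hzu] using h10
    exact hwv ((h9 w hwp hwu hw.2).trans (h9 v p.end_mem_support huv.symm hv.2).symm)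
  · intro v _
    by_cases hv : v ∈ T
    · obtain ⟨X, hX, h4⟩ := h3 v hv
      exact ⟨X, mem_union_left _ hX, h4⟩
    · exact ⟨_, mem_union_right _ (mem_image_of_mem _ (mem_powerset.mpr (filter_subset _ _))),
        hv, rfl⟩

theorem sum_le [Fintype V] (G : SimpleGraph V) (t : ℕ) (ht : 3 * 8 ^ t ≤ Fintype.card V) :
    2 * (chiMp G + chiMp Gᶜ) + t ≤ 3 * Fintype.card V + 1 := by
  classical
  rcases cov_step G t univ with ⟨T, h1, h2⟩ | ⟨k₁, k₂, h1, h2, h3⟩
  · have h3 : 2 ^ T.card ≤ 8 ^ t := by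
      rw [show 8 = 2 ^ 3 by norm_num, ← pow_mul]
      exact Nat.pow_le_pow_right two_pos h1
    have h4 : 7 * t + 1 ≤ 8 ^ t := by
      have := one_add_mul_le_pow (a := (7 : ℤ)) (by norm_num) t
      norm_num at this
      zify
      linarith
    have h5 := (cov_single (G := G) univ).chi_le
    have h6 := (cov_single (G := Gᶜ) univ).chi_le
    rw [card_univ] at h5 h6
    rcases h2 with h2 | h2
    · have := (cov_twins T h2).chi_le
      omega
    · have := (cov_twins T h2).chi_le
      omega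
  · have := h1.chi_le
    have := h2.chi_le
    rw [card_univ] at h3
    omega

end Pool.Agent.Lib.MP_691331_co
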