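import Pool.Agent.Lib.MP_691331_co.GpBasic
import Pool.Agent.Lib.MP_691331_co.Forest

set_option autoImplicit false

namespace Pool.Agent.Lib.MP_691331_co

open Finset

variable {V : Type} (G : SimpleGraph V)

/-- The square of G. -/
def sq : SimpleGraph V where
  Adj x y := x ≠ y ∧ (G.Adj x y ∨ CN G x y)
  symm := ⟨fun _ _ h => ⟨h.1.symm, h.2.imp (fun a => a.symm) (fun a => a.symm)⟩⟩
  loopless := ⟨fun _ h => h.1 rfl⟩

/-- z is a vertex of S with a neighbour in W. -/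
def NW (S W : Finset V) (z : V) : Prop := z ∈ S ∧ ∃ w ∈ W, G.Adj z w

/-- b is a child of y. -/
def Child (S : Finset V) (A : V → Finset V) (y b : V) : Prop :=
  b ∈ S ∧ y ∈ A b ∧ ∀ y' ∈ A b, y' = y ∨ y' ∈ A y

/-- y is the deepest neighbour of v in S. -/
def Deep (S : Finset V) (A : V → Finset V) (y v : V) : Prop :=
  y ∈ S ∧ G.Adj y v ∧ ∀ z ∈ S, y ∈ A z → ¬ G.Adj z v

/-- v may be placed in the class of its deepest neighbour. -/
def Plc (S Z : Finset V) (A : V → Finset V) (v : V) : Prop :=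
  v ∈ Z ∧ (∃ y ∈ S, G.Adj y v) ∧ ∀ y b b', Deep G S A y v → Child S A y b → Child S A y b' →
    NW G S (comp G Z v) b → NW G S (comp G Z v) b' → b = b'

/-- The class attached to y. -/
def starCl (S : Finset V) (A : V → Finset V) (Pl : Set V) (y : V) : Set V :=
  {x | (x ∈ S ∧ y ∈ A x ∧ G.Adj y x ∧ ∀ z ∈ A x, y ∈ A z → ¬ G.Adj z x) ∨
    (Child S A y x ∧ CN G y x ∧ ∀ z ∈ A x, ¬ G.Adj z x) ∨ (x ∈ Pl ∧ Deep G S A y x)}

variable {G} {S Z : Finset V} {root : V → V} {A : V → Finset V}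

lemma comparable_adj (hF : NormalForest (sq G) S root A) {a b : V} (ha : a ∈ S) (hb : b ∈ S)
    (h : G.Adj a b) : a ∈ A b ∨ b ∈ A a := hF.normal a ha b hb ⟨h.ne, Or.inl h⟩

lemma comparable_cn (hF : NormalForest (sq G) S root A) {a b : V} (ha : a ∈ S) (hb : b ∈ S)
    (h : CN G a b) : a = b ∨ a ∈ A b ∨ b ∈ A a := by
  by_cases hab : a = b
  · exact Or.inl hab
  · exact Or.inr (hF.normal a ha b hb ⟨hab, Or.inr h⟩)

lemma sibling (hF : NormalForest (sq G) S root A) {y b b' x : V} (hb : Child S A y b)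
    (hb' : Child S A y b') (hx : x ∈ S) (h1 : x = b ∨ b ∈ A x) (h2 : x = b' ∨ b' ∈ A x) :
    b = b' := by
  have key : ∀ {c c' : V}, Child S A y c → Child S A y c' → c ∉ A c' := by
    intro c c' hc hc' h
    rcases hc'.2.2 c h with h' | h'
    · exact hF.irr c hc.1 (h' ▸ hc.2.1)
    · exact hF.asymm hc.1 hc.2.1 h'
  rcases h1 with h1 | h1 <;> rcases h2 with h2 | h2
  · exact h1.symm.trans h2
  · exact absurd (h1 ▸ h2) (key hb' hb)
  · exact absurd (h2 ▸ h1) (key hb hb')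
  · rcases hF.chain x hx b h1 b' h2 with h | h | h
    · exact h
    · exact absurd h (key hb hb')
    · exact absurd h (key hb' hb)

lemma star_good (hF : NormalForest (sq G) S root A) (hZ : ∀ x, x ∉ S → x ∈ Z) {Pl : Set V}
    (hP1 : ∀ v ∈ Pl, Plc G S Z A v)
    (hP2 : ∀ v ∈ Pl, ∀ v' ∈ Pl, ∀ y ∈ S, G.Adj y v → G.Adj y v' → ¬ G.Adj v v') (y : V) :
    Good G (starCl G S A Pl y) := by
  have hcase : ∀ x ∈ starCl G S A Pl y,
      (x ∈ S ∧ y ∈ A x ∧ ∀ z ∈ A x, y ∈ A z → ¬ G.Adj z x) ∨ (x ∈ Pl ∧ Deep G S A y x) := by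
    rintro x (h | h | h)
    · exact Or.inl ⟨h.1, h.2.1, h.2.2.2⟩
    · exact Or.inl ⟨h.1.1, h.1.2.1, fun z hz _ => h.2.2 z hz⟩
    · exact Or.inr h
  refine good_of_star ?_ y ?_ ?_
  · intro u hu v hv _ hadj
    rcases hcase u hu with h1 | h1 <;> rcases hcase v hv with h2 | h2
    · rcases comparable_adj hF h1.1 h2.1 hadj with h | h
      · exact h2.2.2 u h h1.2.1 hadj
      · exact h1.2.2 v h h2.2.1 hadj.symm
    · exact h2.2.2.2 u h1.1 h1.2.1 hadj
    · exact h1.2.2.2 v h2.1 h2.2.1 hadj.symm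
    · exact hP2 u h1.1 v h2.1 y h1.2.1 h1.2.2.1 h2.2.2.1 hadj
  · rintro u (h | h | h)
    · exact Or.inl h.2.2.1
    · exact Or.inr h.2.1
    · exact Or.inl h.2.2.1
  · intro u hu v hv w hw huv hwu hwv c1 c2
    by_contra hno
    push Not at hno
    have hB : ∀ x ∈ starCl G S A Pl y, ¬ G.Adj y x →
        Child S A y x ∧ ∀ z ∈ A x, ¬ G.Adj z x := by
      rintro x (h | h | h) hn
      · exact absurd h.2.2.1 hn
      · exact ⟨h.1, h.2.2⟩
      · exact absurd h.2.2.1 hn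
    obtain ⟨hu1, hu2⟩ := hB u hu hno.1
    obtain ⟨hv1, hv2⟩ := hB v hv hno.2
    rcases hcase w hw with h | h
    · have key : ∀ b, Child S A y b → w ≠ b → CN G b w → b ∈ A w := by
        intro b hb hwb hc
        rcases comparable_cn hF hb.1 h.1 hc with h' | h' | h'
        · exact absurd h'.symm hwb
        · exact h'
        · rcases hb.2.2 w h' with h'' | h''
          · exact absurd (h'' ▸ h.2.1) (hF.irr w h.1)
          · exact absurd h'' (hF.asymm h.1 h.2.1)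
      exact huv (sibling hF hu1 hv1 h.1 (Or.inr (key u hu1 hwu c1))
        (Or.inr (key v hv1 hwv c2.symm)))
    · have hw' := hP1 w h.1
      have key : ∀ b, Child S A y b → (∀ z ∈ A b, ¬ G.Adj z b) → CN G b w →
          NW G S (comp G Z w) b := by
        rintro b hb hb2 ⟨z, hz1, hz2⟩
        by_cases hzS : z ∈ S
        · exfalso
          rcases comparable_cn hF hzS h.2.1 ⟨w, hz2, h.2.2.1.symm⟩ with h' | h' | h'
          · exact hb2 y hb.2.1 (h' ▸ hz1.symm)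
          · exact hb2 z (hF.trans b hb.1 y hb.2.1 h') hz1.symm
          · exact h.2.2.2 z hzS h' hz2
        · exact ⟨hb.1, z, mem_comp_of_adj (self_mem_comp hw'.1) (hZ z hzS) hz2.symm, hz1⟩
      exact huv (hw'.2.2 y u v h.2 hu1 hv1 (key u hu1 hu2 c1) (key v hv1 hv2 c2.symm))

lemma cover_S (hF : NormalForest (sq G) S root A) (Pl : Set V) {x : V} (hx : x ∈ S)
    (hr : root x ≠ x) : ∃ y ∈ S, x ∈ starCl G S A Pl y := by
  by_cases h : ∃ z ∈ A x, G.Adj z x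
  · obtain ⟨y, hy, hd⟩ := hF.exists_deepest {z | z ∈ A x ∧ G.Adj z x}
      (fun z hz => hF.memS hx hz.1) h
    exact ⟨y, hF.memS hx hy.1, Or.inl ⟨hx, hy.1, hy.2, fun z hz hyz hadj => hd z ⟨hz, hadj⟩ hyz⟩⟩
  · push Not at h
    obtain ⟨y, hy, hadj, hmin⟩ := hF.parent x hx hr
    refine ⟨y, hF.memS hx hy, Or.inr (Or.inl ⟨⟨hx, hy, hmin⟩, ?_, h⟩)⟩
    rcases hadj.2 with h' | h'
    · exact absurd h'.symm (h y hy)
    · exact h'.symm

lemma cover_P (hF : NormalForest (sq G) S root A) {Pl : Set V} {v : V} (hv : v ∈ Pl)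
    (h : ∃ y ∈ S, G.Adj y v) : ∃ y ∈ S, v ∈ starCl G S A Pl y := by
  obtain ⟨y, hy, hd⟩ := hF.exists_deepest {z | z ∈ S ∧ G.Adj z v} (fun z hz => hz.1) h
  exact ⟨y, hy.1, Or.inr (Or.inr ⟨hv, hy.1, hy.2, fun z hz hyz hadj => hd z ⟨hz, hadj⟩ hyz⟩)⟩

lemma plc_of_deepest (hF : NormalForest (sq G) S root A) {v y : V} (hv : v ∈ Z) (hy : y ∈ S)
    (hadj : G.Adj y v) (hd : ∀ z, NW G S (comp G Z v) z → y ∉ A z) : Plc G S Z A v := by
  refine ⟨hv, ⟨y, hy, hadj⟩, fun y' b b' hD hb _ hN _ => ?_⟩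
  exfalso
  rcases comparable_cn hF hD.1 hy ⟨v, hD.2.1, hadj.symm⟩ with h | h | h
  · exact hd b hN (h ▸ hb.2.1)
  · exact hD.2.2 y hy h hadj
  · exact hd y' ⟨hD.1, v, self_mem_comp hv, hD.2.1⟩ h

lemma mem_comp_of_cn {a b x : V} (ha : a ∈ comp (sq G) S x) (hb : b ∈ S) (h : CN G a b) :
    b ∈ comp (sq G) S x := by
  by_cases hab : a = b
  · exact hab ▸ ha
  · exact mem_comp_of_adj ha hb ⟨hab, Or.inr h⟩

lemma mem_comp_of_anc (hF : NormalForest (sq G) S root A) {a z x : V}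
    (ha : a ∈ comp (sq G) S x) (hz : z ∈ S) (h : a ∈ A z) : z ∈ comp (sq G) S x := by
  rw [← comp_eq ha, comp_eq (hF.sub z hz a h)]
  exact self_mem_comp hz

lemma exists_Wdeepest (hF : NormalForest (sq G) S root A) {W : Finset V} {x : V}
    (h : ∃ z ∈ comp (sq G) S x, NW G S W z) :
    ∃ y ∈ comp (sq G) S x, NW G S W y ∧ ∀ z, NW G S W z → y ∉ A z := by
  obtain ⟨y, hy, hd⟩ := hF.exists_deepest {z | z ∈ comp (sq G) S x ∧ NW G S W z}
    (fun z hz => hz.2.1) h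
  exact ⟨y, hy.1, hy.2, fun z hz hyz => hd z ⟨mem_comp_of_anc hF hy.1 hz.1 hyz, hz⟩ hyz⟩

open Classical in
/-- The choice of the vertex that the root of a non-base component replaces. -/
lemma choose_replace (hF : NormalForest (sq G) S root A) {w0 r : V} {π : V → V}
    (hinv : ∀ x, π (π x) = x) (hπ : ∀ x ∈ Z, π x ∈ comp G Z x) (hr : r ∈ S)
    (hmin : ∀ y ∈ comp (sq G) S r, ((comp G Z w0).filter (G.Adj r)).card ≤
      ((comp G Z w0).filter (G.Adj y)).card)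
    (hne : ∃ z ∈ comp (sq G) S r, NW G S (comp G Z w0) z) :
    ∃ v ∈ comp G Z w0, (∃ y ∈ comp (sq G) S r, G.Adj y v) ∧ Plc G S Z A v ∧
      (G.Adj r (π v) → Plc G S Z A (π v)) := by
  by_contra hno
  push Not at hno
  set W := comp G Z w0 with hW
  have hπW : ∀ v ∈ W, π v ∈ W := fun v hv => by
    have := hπ v (comp_subset Z w0 hv)
    rwa [comp_eq hv] at this
  have hinj : Function.Injective π := Function.Involutive.injective hinv
  have hbad : ∀ y ∈ comp (sq G) S r, (∀ z, NW G S W z → y ∉ A z) → ∀ v ∈ W, G.Adj y v →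
      G.Adj r (π v) ∧ ¬ Plc G S Z A (π v) := by
    intro y hy hd v hv hadj
    refine hno v hv ⟨y, hy, hadj⟩ (plc_of_deepest hF (comp_subset Z w0 hv) (comp_subset S r hy)
      hadj ?_)
    rwa [comp_eq hv]
  have himg : ∀ y ∈ comp (sq G) S r, (∀ z, NW G S W z → y ∉ A z) →
      (W.filter (G.Adj y)).image π = W.filter (G.Adj r) := by
    intro y hy hd
    refine eq_of_subset_of_card_le (fun x hx => ?_) ?_
    · obtain ⟨v, hv, rfl⟩ := mem_image.mp hx
      exact mem_filter.mpr ⟨hπW v (mem_filter.mp hv).1,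
        (hbad y hy hd v (mem_filter.mp hv).1 (mem_filter.mp hv).2).1⟩
    · rw [card_image_of_injective _ hinj]
      exact hmin y hy
  obtain ⟨y, hy, ⟨-, v, hv, hadj⟩, hd⟩ := exists_Wdeepest hF hne
  obtain ⟨h1, h2⟩ := hbad y hy hd v hv hadj
  have hxW := hπW v hv
  refine h2 ⟨comp_subset Z w0 hxW, ⟨r, hr, h1⟩, fun y' b b' hD hb hb' hN hN' => ?_⟩
  rw [comp_eq hxW] at hN hN'
  have hy' : y' ∈ comp (sq G) S r := mem_comp_of_cn (self_mem_comp hr) hD.1 ⟨_, h1, hD.2.1.symm⟩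
  have key : ∀ c, Child S A y' c → NW G S W c → ∃ l ∈ comp (sq G) S r, NW G S W l ∧
      (l = c ∨ c ∈ A l) ∧ ∀ z, NW G S W z → l ∉ A z := by
    intro c hc hNc
    obtain ⟨l, hl, hdl⟩ := hF.exists_deepest {z | NW G S W z ∧ (z = c ∨ c ∈ A z)}
      (fun z hz => hz.1.1) ⟨c, hNc, Or.inl rfl⟩
    have hcK := mem_comp_of_anc hF hy' hc.1 hc.2.1
    refine ⟨l, ?_, hl.1, hl.2, fun z hz hlz => hdl z ⟨hz, Or.inr ?_⟩ hlz⟩
    · rcases hl.2 with h | h
      · exact h ▸ hcK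
      · exact mem_comp_of_anc hF hcK hl.1.1 h
    · rcases hl.2 with h | h
      · exact h ▸ hlz
      · exact hF.trans z hz.1 l hlz h
  obtain ⟨l, hl, hNl, hlb, hdl⟩ := key b hb hN
  obtain ⟨l', hl', hNl', hlb', hdl'⟩ := key b' hb' hN'
  have heq : W.filter (G.Adj l) = W.filter (G.Adj l') :=
    image_injective hinj ((himg l hl hdl).trans (himg l' hl' hdl').symm)
  obtain ⟨hlS, w, hw, hlw⟩ := hNl
  have hl'w : G.Adj l' w := (mem_filter.mp (heq ▸ mem_filter.mpr ⟨hw, hlw⟩ :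
    w ∈ W.filter (G.Adj l'))).2
  rcases comparable_cn hF hlS hNl'.1 ⟨w, hlw, hl'w.symm⟩ with h | h | h
  · exact sibling hF hb hb' hlS hlb (h ▸ hlb')
  · exact absurd h (hdl l' hNl')
  · exact absurd h (hdl' l ⟨hlS, w, hw, hlw⟩)

lemma walk_exit (hZ : ∀ x, x ∉ S → x ∈ Z) {a b : V} (q : G.Walk a b) (hb : b ∈ S) :
    a ∉ S → ∃ z, NW G S (comp G Z a) z ∧ ∃ q' : G.Walk z b, q'.length < q.length := by
  induction q with
  | nil => exact fun h => absurd hb h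
  | @cons a c d hadj q ih =>
    intro ha
    by_cases hc : c ∈ S
    · exact ⟨c, ⟨hc, a, self_mem_comp (hZ a ha), hadj.symm⟩, q, by simp⟩
    · obtain ⟨z, hz, q', hq'⟩ := ih hb hc
      rw [comp_eq (mem_comp_of_adj (self_mem_comp (hZ a ha)) (hZ c hc) hadj)] at hz
      exact ⟨z, hz, q', by simp; omega⟩

end Pool.Agent.Lib.MP_691331_co
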