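import Mathlib

set_option autoImplicit false

namespace Pool.Agent.Lib.MP_691331_co

open Finset

lemma exists_min_nat {α : Type*} (S : Set α) (f : α → ℕ) (h : S.Nonempty) :
    ∃ a ∈ S, ∀ b ∈ S, f a ≤ f b := by
  obtain ⟨a, ha, hmin⟩ := (InvImage.wf f wellFounded_lt).has_min S h
  exact ⟨a, ha, fun b hb => not_lt.mp (hmin b hb)⟩

variable {V : Type} [DecidableEq V] (G : SimpleGraph V)

/-- Reachability inside a vertex set. -/
def Reach (Z : Finset V) (x y : V) : Prop :=
  Relation.ReflTransGen (fun a b => a ∈ Z ∧ b ∈ Z ∧ G.Adj a b) x y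

open Classical in
/-- The component of x inside Z. -/
noncomputable def comp (Z : Finset V) (x : V) : Finset V := Z.filter (Reach G Z x)

/-- Connectivity of a vertex set, in closure form. -/
def Conn (Z : Finset V) : Prop :=
  ∀ R : V → Prop, (∃ x ∈ Z, R x) → (∀ x ∈ Z, R x → ∀ y ∈ Z, G.Adj x y → R y) → ∀ y ∈ Z, R y

variable {G}

omit [DecidableEq V] in
lemma Reach.symm {Z : Finset V} {x y : V} (h : Reach G Z x y) : Reach G Z y x := by
  induction h with
  | refl => exact Relation.ReflTransGen.refl
  | tail _ hb ih => exact Relation.ReflTransGen.head ⟨hb.2.1, hb.1, hb.2.2.symm⟩ ih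

omit [DecidableEq V] in
lemma mem_comp {Z : Finset V} {x y : V} : y ∈ comp G Z x ↔ y ∈ Z ∧ Reach G Z x y := by
  simp [comp]

omit [DecidableEq V] in
lemma comp_subset (Z : Finset V) (x : V) : comp G Z x ⊆ Z := fun _ h => (mem_comp.mp h).1

omit [DecidableEq V] in
lemma self_mem_comp {Z : Finset V} {x : V} (hx : x ∈ Z) : x ∈ comp G Z x :=
  mem_comp.mpr ⟨hx, Relation.ReflTransGen.refl⟩

omit [DecidableEq V] in
lemma comp_eq {Z : Finset V} {x y : V} (h : y ∈ comp G Z x) : comp G Z y = comp G Z x := by
  have hr := (mem_comp.mp h).2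
  ext z
  simp only [mem_comp]
  exact ⟨fun ⟨hz, h2⟩ => ⟨hz, hr.trans h2⟩, fun ⟨hz, h2⟩ => ⟨hz, hr.symm.trans h2⟩⟩

omit [DecidableEq V] in
lemma mem_comp_of_adj {Z : Finset V} {x y z : V} (h : y ∈ comp G Z x) (hz : z ∈ Z)
    (hadj : G.Adj y z) : z ∈ comp G Z x :=
  mem_comp.mpr ⟨hz, (mem_comp.mp h).2.tail ⟨(mem_comp.mp h).1, hz, hadj⟩⟩

omit [DecidableEq V] in
lemma conn_comp (Z : Finset V) (x : V) : Conn G (comp G Z x) := by
  rintro R ⟨a, ha, hRa⟩ hcl y hy
  have hay : Reach G Z a y := (mem_comp.mp ha).2.symm.trans (mem_comp.mp hy).2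
  have key : ∀ y, Reach G Z a y → y ∈ comp G Z x ∧ R y := by
    intro y h
    induction h with
    | refl => exact ⟨ha, hRa⟩
    | tail _ hb ih =>
      have := mem_comp_of_adj ih.1 hb.2.1 hb.2.2
      exact ⟨this, hcl _ ih.1 ih.2 _ this hb.2.2⟩
  exact (key y hay).2

variable (G)

/-- A labelling whose classes inside Z are cliques. -/
def Valid (Z : Finset V) (c : V → ℕ) : Prop :=
  ∀ x ∈ Z, ∀ y ∈ Z, x ≠ y → c x = c y → G.Adj x y

/-- The clique cover number of the subgraph induced on Z. -/
noncomputable def theta (Z : Finset V) : ℕ :=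
  sInf {k | ∃ c, Valid G Z c ∧ (Z.image c).card = k}

variable {G}

omit [DecidableEq V] in
lemma theta_le {Z : Finset V} {c : V → ℕ} (h : Valid G Z c) : theta G Z ≤ (Z.image c).card :=
  Nat.sInf_le ⟨c, h, rfl⟩

lemma exists_opt (Z : Finset V) : ∃ c, Valid G Z c ∧ (Z.image c).card = theta G Z := by
  have : {k | ∃ c, Valid G Z c ∧ (Z.image c).card = k}.Nonempty := by
    refine ⟨_, fun x => if h : x ∈ Z then (Z.equivFin ⟨x, h⟩ : ℕ) else 0, ?_, rfl⟩
    intro x hx y hy hxy h
    simp only [hx, hy, dif_pos] at h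
    have := Z.equivFin.injective (Fin.ext h)
    exact absurd (congrArg Subtype.val this) hxy
  exact Nat.sInf_mem this

omit [DecidableEq V] in
lemma Valid.mono {Z Y : Finset V} {c : V → ℕ} (h : Valid G Z c) (hY : Y ⊆ Z) : Valid G Y c :=
  fun x hx y hy => h x (hY hx) y (hY hy)

lemma theta_mono {Z Y : Finset V} (hY : Y ⊆ Z) : theta G Y ≤ theta G Z := by
  obtain ⟨c, hc, hk⟩ := exists_opt (G := G) Z
  exact (theta_le (hc.mono hY)).trans (hk ▸ card_le_card (image_subset_image hY))

lemma theta_union_le (A B : Finset V) : theta G (A ∪ B) ≤ theta G A + theta G B := by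
  obtain ⟨a, ha, hka⟩ := exists_opt (G := G) A
  obtain ⟨b, hb, hkb⟩ := exists_opt (G := G) B
  have hv : Valid G (A ∪ B) (fun x => if x ∈ A then 2 * a x else 2 * b x + 1) := by
    intro x hx y hy hxy h
    by_cases h1 : x ∈ A <;> by_cases h2 : y ∈ A <;> simp only [h1, h2, if_true, if_false] at h
    · exact ha x h1 y h2 hxy (by omega)
    · omega
    · omega
    · exact hb x (by simpa [h1] using hx) y (by simpa [h2] using hy) hxy (by omega)
  refine (theta_le hv).trans ?_
  have hsub : (A ∪ B).image (fun x => if x ∈ A then 2 * a x else 2 * b x + 1) ⊆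
      (A.image a).image (fun i => 2 * i) ∪ (B.image b).image (fun i => 2 * i + 1) := by
    intro i hi
    obtain ⟨x, hx, rfl⟩ := mem_image.mp hi
    by_cases h1 : x ∈ A
    · simp only [h1, if_true]
      exact mem_union_left _ (mem_image_of_mem _ (mem_image_of_mem _ h1))
    · simp only [h1, if_false]
      exact mem_union_right _ (mem_image_of_mem _ (mem_image_of_mem _ (by simpa [h1] using hx)))
  refine (card_le_card hsub).trans ((card_union_le _ _).trans ?_)
  rw [← hka, ← hkb]
  exact add_le_add card_image_le card_image_le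

lemma theta_add_le {A B : Finset V} (hd : Disjoint A B) (hn : ∀ x ∈ A, ∀ y ∈ B, ¬ G.Adj x y) :
    theta G A + theta G B ≤ theta G (A ∪ B) := by
  obtain ⟨c, hc, hk⟩ := exists_opt (G := G) (A ∪ B)
  have hdis : Disjoint (A.image c) (B.image c) := by
    rw [disjoint_left]
    intro i hi hi'
    obtain ⟨x, hx, rfl⟩ := mem_image.mp hi
    obtain ⟨y, hy, hyx⟩ := mem_image.mp hi'
    have hne : x ≠ y := fun h => disjoint_left.mp hd hx (h ▸ hy)
    exact hn x hx y hy (hc x (mem_union_left _ hx) y (mem_union_right _ hy) hne hyx.symm)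
  rw [← hk, image_union, card_union_of_disjoint hdis]
  exact add_le_add (theta_le (hc.mono subset_union_left)) (theta_le (hc.mono subset_union_right))

omit [DecidableEq V] in
lemma theta_empty : theta G (∅ : Finset V) = 0 := by
  have := theta_le (G := G) (Z := ∅) (c := fun _ => 0) (fun x hx => by simp at hx)
  simpa using this

lemma theta_biUnion_le (𝒲 : Finset (Finset V)) :
    theta G (𝒲.biUnion id) ≤ ∑ W ∈ 𝒲, theta G W := by
  induction 𝒲 using Finset.induction_on with
  | empty => simp [theta_empty]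
  | insert W 𝒲 hW ih =>
    rw [biUnion_insert, sum_insert hW]
    exact (theta_union_le _ _).trans (by simpa using ih)

variable (G) in
/-- Deleting any vertex lowers the clique cover number. -/
def Crit (Z : Finset V) : Prop := ∀ t ∈ Z, theta G (Z.erase t) < theta G Z

lemma crit_comp {Z : Finset V} (h : Crit G Z) (x : V) : Crit G (comp G Z x) := by
  intro t ht
  set W := comp G Z x with hW
  have hWZ : W ⊆ Z := comp_subset Z x
  have h1 : theta G Z ≤ theta G W + theta G (Z \ W) := by
    have := theta_union_le (G := G) W (Z \ W)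
    rwa [union_sdiff_of_subset hWZ] at this
  have h2 : theta G (W.erase t) + theta G (Z \ W) ≤ theta G (W.erase t ∪ (Z \ W)) := by
    refine theta_add_le (disjoint_left.mpr fun a ha hb => ?_) fun a ha b hb hadj => ?_
    · exact (mem_sdiff.mp hb).2 (mem_of_mem_erase ha)
    · exact (mem_sdiff.mp hb).2 (mem_comp_of_adj (mem_of_mem_erase ha) (mem_sdiff.mp hb).1 hadj)
  have h3 : theta G (W.erase t ∪ (Z \ W)) ≤ theta G (Z.erase t) := by
    refine theta_mono fun a ha => ?_
    rcases mem_union.mp ha with ha | ha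
    · exact mem_erase.mpr ⟨(mem_erase.mp ha).1, hWZ (mem_erase.mp ha).2⟩
    · exact mem_erase.mpr ⟨fun h => (mem_sdiff.mp ha).2 (h ▸ ht), (mem_sdiff.mp ha).1⟩
  have h4 := h t (hWZ ht)
  omega

lemma exists_crit (U : Finset V) : ∃ Z ⊆ U, Crit G Z ∧ theta G Z = theta G U := by
  obtain ⟨Z, ⟨hZ, hθ⟩, hmin⟩ := exists_min_nat {Z : Finset V | Z ⊆ U ∧ theta G Z = theta G U}
    Finset.card ⟨U, Subset.rfl, rfl⟩
  refine ⟨Z, hZ, fun t ht => ?_, hθ⟩
  by_contra hle
  have h1 : theta G (Z.erase t) = theta G U :=
    le_antisymm (theta_mono ((erase_subset _ _).trans hZ)) (hθ ▸ not_lt.mp hle)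
  have := hmin (Z.erase t) ⟨(erase_subset _ _).trans hZ, h1⟩
  have h2 := card_erase_lt_of_mem ht
  omega

open Classical in
/-- In a critical set every vertex has at least theta - 1 non-neighbours. -/
lemma crit_nonnbr {Z : Finset V} (h : Crit G Z) {x : V} (hx : x ∈ Z) :
    theta G Z ≤ ((Z.erase x).filter (fun y => ¬ G.Adj x y)).card + 1 := by
  obtain ⟨c, hc, hk⟩ := exists_opt (G := G) (Z.erase x)
  have h1 : theta G Z ≤ theta G (Z.erase x) + 1 := by
    have h2 := theta_union_le (G := G) (Z.erase x) {x}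
    have h3 : theta G {x} ≤ 1 := by
      have := theta_le (G := G) (Z := {x}) (c := fun _ => 0)
        (fun a ha b hb hab _ => absurd ((mem_singleton.mp ha).trans (mem_singleton.mp hb).symm) hab)
      simpa using this
    have h4 : Z.erase x ∪ {x} = Z := by
      ext a
      simp only [mem_union, mem_erase, mem_singleton]
      constructor
      · rintro (h | h)
        · exact h.2
        · exact h ▸ hx
      · intro ha
        by_cases hax : a = x
        · exact Or.inr hax
        · exact Or.inl ⟨hax, ha⟩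
    rw [h4] at h2
    omega
  have h5 : (Z.erase x).image c ⊆ ((Z.erase x).filter (fun y => ¬ G.Adj x y)).image c := by
    intro i hi
    by_contra hno
    have hall : ∀ y ∈ Z.erase x, c y = i → G.Adj x y := by
      intro y hy hyi
      by_contra hn
      exact hno (mem_image.mpr ⟨y, mem_filter.mpr ⟨hy, hn⟩, hyi⟩)
    have hv : Valid G Z (Function.update c x i) := by
      intro a ha b hb hab hab'
      by_cases hax : a = x
      · subst hax
        rw [Function.update_self, Function.update_of_ne hab.symm] at hab'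
        exact hall b (mem_erase.mpr ⟨hab.symm, hb⟩) hab'.symm
      by_cases hbx : b = x
      · subst hbx
        rw [Function.update_self, Function.update_of_ne hab] at hab'
        exact (hall a (mem_erase.mpr ⟨hab, ha⟩) hab').symm
      rw [Function.update_of_ne hax, Function.update_of_ne hbx] at hab'
      exact hc a (mem_erase.mpr ⟨hax, ha⟩) b (mem_erase.mpr ⟨hbx, hb⟩) hab hab'
    have hsub : Z.image (Function.update c x i) ⊆ (Z.erase x).image c := by
      intro j hj
      obtain ⟨a, ha, rfl⟩ := mem_image.mp hj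
      by_cases hax : a = x
      · subst hax
        rwa [Function.update_self]
      · rw [Function.update_of_ne hax]
        exact mem_image_of_mem _ (mem_erase.mpr ⟨hax, ha⟩)
    have h6 := (theta_le hv).trans (card_le_card hsub)
    have h7 := h x hx
    omega
  have h8 := (card_le_card h5).trans card_image_le
  omega

end Pool.Agent.Lib.MP_691331_co
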